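import Mathlib

set_option autoImplicit false

/-! Elementwise homological algebra for cochains on a projective resolution. -/

namespace Pool.Agent.P.MP_fd997c_al

variable {R : Type} [CommRing R]

/-- Lifting along a map whose range contains the image. -/
theorem exists_lift {P A B : Type} [AddCommGroup P] [Module R P] [Module.Projective R P]
    [AddCommGroup A] [Module R A] [AddCommGroup B] [Module R B]
    (g : A →ₗ[R] B) (f : P →ₗ[R] B) (h : ∀ p, ∃ a, g a = f p) :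
    ∃ l : P →ₗ[R] A, ∀ p, g (l p) = f p := by
  obtain ⟨l, hl⟩ := Module.projective_lifting_property g.rangeRestrict
    (f.codRestrict (LinearMap.range g) (fun p => h p)) g.surjective_rangeRestrict
  refine ⟨l, fun p => ?_⟩
  have := congrArg Subtype.val (LinearMap.congr_fun hl p)
  simpa using this

/-- `π` is the reduction modulo the regular element `a`. -/
structure Step {Y Y' : Type} [AddCommGroup Y] [Module R Y] [AddCommGroup Y'] [Module R Y']
    (a : R) (π : Y →ₗ[R] Y') : Prop where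
  surj : ∀ y', ∃ y, π y = y'
  ker : ∀ y, π y = 0 → ∃ z, a • z = y
  kill : ∀ y, π (a • y) = 0
  reg : ∀ y : Y, a • y = 0 → y = 0

section
variable {Y Y' P : Type} [AddCommGroup Y] [Module R Y] [AddCommGroup Y'] [Module R Y']
  [AddCommGroup P] [Module R P] [Module.Projective R P] {a : R} {π : Y →ₗ[R] Y'}

theorem Step.lift (h : Step a π) (f : P →ₗ[R] Y') : ∃ g : P →ₗ[R] Y, ∀ p, π (g p) = f p :=
  exists_lift π f (fun _ => h.surj _)

theorem Step.div (h : Step a π) (f : P →ₗ[R] Y) (hf : ∀ p, π (f p) = 0) :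
    ∃ g : P →ₗ[R] Y, ∀ p, a • g p = f p := by
  obtain ⟨l, hl⟩ := exists_lift (a • (LinearMap.id : Y →ₗ[R] Y)) f
    (fun p => by simpa using h.ker _ (hf p))
  exact ⟨l, fun p => by simpa using hl p⟩

/-- Postcomposition with `π`. -/
def post (π : Y →ₗ[R] Y') (P : Type) [AddCommGroup P] [Module R P] :
    (P →ₗ[R] Y) →ₗ[R] (P →ₗ[R] Y') := LinearMap.compRight R π

omit [Module.Projective R P] in
@[simp] theorem post_apply (f : P →ₗ[R] Y) (p : P) : post π P f p = π (f p) := rfl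

theorem Step.hom (h : Step a π) (P : Type) [AddCommGroup P] [Module R P] [Module.Projective R P] :
    Step a (post π P) where
  surj f := by
    obtain ⟨g, hg⟩ := h.lift f
    exact ⟨g, by ext p; simpa using hg p⟩
  ker f hf := by
    obtain ⟨g, hg⟩ := h.div f (fun p => by simpa using LinearMap.congr_fun hf p)
    exact ⟨g, by ext p; simpa using hg p⟩
  kill f := by ext p; simpa using h.kill (f p)
  reg f hf := by
    ext p
    simpa using h.reg (f p) (by simpa using LinearMap.congr_fun hf p)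

end

section
variable {Pm P0 P1 P2 : Type} [AddCommGroup Pm] [Module R Pm] [AddCommGroup P0] [Module R P0]
  [AddCommGroup P1] [Module R P1] [AddCommGroup P2] [Module R P2]

/-- Vanishing of cohomology of `Hom(P, X)` at `P0`. -/
def Van (dm : P0 →ₗ[R] Pm) (d : P1 →ₗ[R] P0) (X : Type) [AddCommGroup X] [Module R X] : Prop :=
  ∀ f : P0 →ₗ[R] X, (∀ q, f (d q) = 0) → ∃ g : Pm →ₗ[R] X, ∀ p, f p = g (dm p)

/-- Multiplication by `a` is null-homotopic at `P0`. -/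
def Kl (a : R) (dm : P0 →ₗ[R] Pm) (d : P1 →ₗ[R] P0) : Prop :=
  ∃ h : Pm →ₗ[R] P0, ∀ p, ∃ q, d q = a • p - h (dm p)

theorem Kl.next [Module.Projective R P0] {a : R} {dm : P0 →ₗ[R] Pm} {d0 : P1 →ₗ[R] P0}
    {d1 : P2 →ₗ[R] P1} (h : Kl a dm d0) (hdd : ∀ q, dm (d0 q) = 0)
    (hex : ∀ q, d0 q = 0 → ∃ w, d1 w = q) : Kl a d0 d1 := by
  obtain ⟨h, hh⟩ := h
  obtain ⟨k, hk⟩ := exists_lift d0 (a • LinearMap.id - h ∘ₗ dm) (fun p => by simpa using hh p)
  refine ⟨k, fun p => hex _ ?_⟩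
  have := hk (d0 p)
  simp only [LinearMap.sub_apply, LinearMap.smul_apply, LinearMap.id_apply, LinearMap.comp_apply,
    hdd, map_zero, sub_zero] at this
  simp [this]

theorem Kl.cob {a : R} {dm : P0 →ₗ[R] Pm} {d : P1 →ₗ[R] P0} (h : Kl a dm d)
    {X : Type} [AddCommGroup X] [Module R X] (f : P0 →ₗ[R] X) (hf : ∀ q, f (d q) = 0) :
    ∃ g : Pm →ₗ[R] X, ∀ p, g (dm p) = a • f p := by
  obtain ⟨h, hh⟩ := h
  refine ⟨f ∘ₗ h, fun p => ?_⟩
  obtain ⟨q, hq⟩ := hh p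
  have := hf q
  rw [hq, map_sub, map_smul, sub_eq_zero] at this
  simpa using this.symm

variable {X X' : Type} [AddCommGroup X] [Module R X] [AddCommGroup X'] [Module R X']
  {a : R} {π : X →ₗ[R] X'}

theorem van_zero {d : P1 →ₗ[R] P0} (hs : Step a π) (hk : Kl a (0 : P0 →ₗ[R] Pm) d) :
    Van (0 : P0 →ₗ[R] Pm) d X := by
  intro f hf
  obtain ⟨g, hg⟩ := hk.cob f hf
  refine ⟨0, fun p => ?_⟩
  have := hg p
  simp only [LinearMap.zero_apply, map_zero] at this ⊢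
  exact hs.reg _ this.symm

theorem van_up [Module.Projective R Pm] [Module.Projective R P0] {dm : P0 →ₗ[R] Pm}
    {d0 : P1 →ₗ[R] P0} {d1 : P2 →ₗ[R] P1} (hs : Step a π) (hk : Kl a d0 d1)
    (hdd : ∀ q, dm (d0 q) = 0) (hv : Van dm d0 X') : Van d0 d1 X := by
  intro f hf
  obtain ⟨g, hg⟩ := hk.cob f hf
  obtain ⟨w, hw⟩ := hv (π ∘ₗ g) (fun q => by simp [hg, hs.kill])
  obtain ⟨w', hw'⟩ := hs.lift w
  obtain ⟨e, he⟩ := hs.div (g - w' ∘ₗ dm) (fun p => by
    have := hw p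
    simp only [LinearMap.comp_apply] at this
    simp [hw', this])
  refine ⟨e, fun p => ?_⟩
  have h1 := he (d0 p)
  simp only [LinearMap.sub_apply, LinearMap.comp_apply, hdd, map_zero, sub_zero, hg] at h1
  have := hs.reg (f p - e (d0 p)) (by rw [smul_sub, h1, sub_self])
  exact sub_eq_zero.mp this

theorem van_down [Module.Projective R P0] [Module.Projective R P1] {dm : P0 →ₗ[R] Pm}
    {d0 : P1 →ₗ[R] P0} {d1 : P2 →ₗ[R] P1} (hs : Step a π)
    (hdd : ∀ q, d0 (d1 q) = 0) (hv1 : Van d0 d1 X) (hv0 : Van dm d0 X) : Van dm d0 X' := by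
  intro f' hf'
  obtain ⟨f, hf⟩ := hs.lift f'
  obtain ⟨h, hh⟩ := hs.div (f ∘ₗ d0) (fun p => by simp [hf, hf'])
  obtain ⟨u, hu⟩ := hv1 h (fun q => hs.reg _ (by simp [hh, hdd]))
  obtain ⟨w, hw⟩ := hv0 (f - a • u) (fun q => by
    have := hh q
    simp only [LinearMap.comp_apply] at this
    simp [← this, hu])
  refine ⟨π ∘ₗ w, fun p => ?_⟩
  have := congrArg π (hw p)
  simp only [LinearMap.sub_apply, LinearMap.smul_apply, map_sub, hs.kill, sub_zero, hf] at this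
  simpa using this

theorem van_hom {dm : P0 →ₗ[R] Pm} {d : P1 →ₗ[R] P0} (hv : Van dm d X)
    (P : Type) [AddCommGroup P] [Module R P] [Module.Projective R P] :
    Van dm d (P →ₗ[R] X) := by
  intro f hf
  obtain ⟨l, hl⟩ := exists_lift (LinearMap.lcomp R X dm) f.flip (fun p => by
    obtain ⟨g, hg⟩ := hv (f.flip p) (fun q => by simp [hf])
    exact ⟨g, by ext x; simpa using (hg x).symm⟩)
  refine ⟨l.flip, fun p => ?_⟩
  ext x
  simpa using (LinearMap.congr_fun (hl x) p).symm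

variable {U2 U1 U0 : Type} [AddCommGroup U2] [Module R U2] [AddCommGroup U1] [Module R U1]
  [AddCommGroup U0] [Module R U0]

/-- Exactness of `H(U2) → H(U1) → H(U0)` for the cohomology at `P0`. -/
def Exa (dm : P0 →ₗ[R] Pm) (d : P1 →ₗ[R] P0) (φ2 : U2 →ₗ[R] U1) (φ1 : U1 →ₗ[R] U0) : Prop :=
  ∀ f : P0 →ₗ[R] U1, (∀ q, f (d q) = 0) → (∃ u : Pm →ₗ[R] U0, ∀ p, φ1 (f p) = u (dm p)) →
    ∃ (h : P0 →ₗ[R] U2) (e : Pm →ₗ[R] U1), (∀ q, h (d q) = 0) ∧ ∀ p, f p = φ2 (h p) + e (dm p)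

variable {V2 V1 V0 : Type} [AddCommGroup V2] [Module R V2] [AddCommGroup V1] [Module R V1]
  [AddCommGroup V0] [Module R V0]

theorem exa_up [Module.Projective R Pm] [Module.Projective R P0] [Module.Projective R P1]
    {dm : P0 →ₗ[R] Pm} {d0 : P1 →ₗ[R] P0} {d1 : P2 →ₗ[R] P1}
    {φ2 : U2 →ₗ[R] U1} {φ1 : U1 →ₗ[R] U0} {ψ2 : V2 →ₗ[R] V1} {ψ1 : V1 →ₗ[R] V0}
    {π2 : U2 →ₗ[R] V2} {π1 : U1 →ₗ[R] V1} {π0 : U0 →ₗ[R] V0}
    (s2 : Step a π2) (s1 : Step a π1) (s0 : Step a π0)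
    (c2 : ∀ u, π1 (φ2 u) = ψ2 (π2 u)) (c1 : ∀ u, π0 (φ1 u) = ψ1 (π1 u))
    (hk : Kl a d0 d1) (hdd : ∀ q, dm (d0 q) = 0) (hdd' : ∀ q, d0 (d1 q) = 0)
    (hv : Van dm d0 U0) (hE : Exa dm d0 ψ2 ψ1) : Exa d0 d1 φ2 φ1 := by
  rintro f hf ⟨u, hu⟩
  obtain ⟨g, hg⟩ := hk.cob f hf
  obtain ⟨w, hw⟩ := hv (φ1 ∘ₗ g - a • u) (fun q => by simp [hg, hu])
  obtain ⟨h', e', hh', he'⟩ := hE (π1 ∘ₗ g) (fun q => by simp [hg, s1.kill])
    ⟨π0 ∘ₗ w, fun p => by
      have := congrArg π0 (hw p)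
      simp only [LinearMap.sub_apply, LinearMap.comp_apply, LinearMap.smul_apply, map_sub,
        s0.kill, sub_zero, c1] at this
      simpa using this⟩
  obtain ⟨h, hh⟩ := s2.lift h'
  obtain ⟨e, he⟩ := s1.lift e'
  obtain ⟨h1, hh1⟩ := s2.div (h ∘ₗ d0) (fun p => by simp [hh, hh'])
  obtain ⟨e1, he1⟩ := s1.div (g - φ2 ∘ₗ h - e ∘ₗ dm) (fun p => by
    have := he' p
    simp only [LinearMap.comp_apply] at this
    simp [c2, hh, he, this])
  refine ⟨h1, e1, fun q => s2.reg _ (by simp [hh1, hdd']), fun p => ?_⟩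
  have a1 := he1 (d0 p)
  have a2 := hh1 p
  simp only [LinearMap.sub_apply, LinearMap.comp_apply, hdd, map_zero, sub_zero, hg] at a1 a2
  have := s1.reg (f p - (φ2 (h1 p) + e1 (d0 p))) (by
    rw [smul_sub, smul_add, a1, ← map_smul φ2, a2]; abel)
  exact sub_eq_zero.mp this

end

end Pool.Agent.P.MP_fd997c_al
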