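import Mathlib

set_option autoImplicit false

/-! Integer data attached to a Steiner triple system on thirteen points. -/

namespace Pool.Agent.P.MP_fd997c_al

/-- The labelled blocks. -/
def blk : Fin 26 → Fin 3 → Fin 13 :=
  ![![1, 4, 0], ![5, 1, 2], ![2, 3, 6], ![3, 7, 4], ![4, 5, 8], ![6, 9, 5],
    ![7, 6, 10], ![8, 11, 7], ![9, 8, 12], ![10, 0, 9], ![11, 10, 1], ![12, 2, 11],
    ![0, 12, 3], ![7, 0, 2], ![3, 8, 1], ![2, 4, 9], ![5, 10, 3], ![4, 11, 6],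
    ![12, 7, 5], ![0, 6, 8], ![1, 9, 7], ![8, 2, 10], ![9, 3, 11], ![10, 12, 4],
    ![11, 5, 0], ![6, 1, 12]]

/-- Two vectors for each block. -/
def vv (α : Fin 2) (i : Fin 26) (j : Fin 13) : ℤ :=
  (if j = blk i α.castSucc then 1 else 0) - (if j = blk i 2 then 1 else 0)

/-- Signs of the blocks. -/
def cc (i : Fin 26) : ℤ := if i.val < 13 then 1 else -1

/-- A projection. -/
def ee (j l : Fin 13) : ℤ := (if j = l then 1 else 0) - (if l = 0 then 1 else 0)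

/-- Left inverses. -/
def rho : Fin 2 → Fin 13 → Fin 26 → ℤ :=
  ![![![0, 0, 0, 0, 0, 0, 0, 0, 0, 0, 0, 0, 0, 0, 0, 0, 0, 0, 0, 0, 0, 0, 0, 0, 0, 0],
    ![1, 0, 0, 0, 1, -1, 1, 0, 0, 0, 1, 0, 0, 0, 0, 0, 0, 0, 1, -1, 1, 0, 0, 1, -1, 1],
    ![-3, 2, -2, 2, 0, 6, -1, 0, 4, 0, -1, 1, -2, -1, -4, 4, 0, 1, -4, 0, -2, 0, 0, -1, 2, -7],
    ![-3, 3, -3, 3, 0, 7, -1, 0, 5, 0, 0, 2, -2, 0, -4, 6, 0, 3, -4, 1, -1, 1, 1, 0, 3, -7],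
    ![-2, 2, -2, 2, 0, 5, 0, 0, 3, 1, 0, 1, -1, -1, -3, 3, 0, 2, -3, 0, -1, 0, 1, -1, 2, -5],
    ![0, 1, 0, 0, 1, 1, 0, 0, 1, 0, 0, 0, -1, 0, 0, 1, 1, 0, 0, 0, 0, 1, 0, 1, 0, -1],
    ![2, -1, 1, -2, 2, -4, 1, 0, -2, -1, 1, -1, 0, 0, 2, -2, 0, -2, 3, -2, 1, 0, -1, 2, -3, 4],
    ![-1, 1, -1, 1, 0, 3, 0, 0, 2, 0, 0, 1, -1, 0, -2, 2, 0, 1, -2, 0, -1, 0, 0, 0, 1, -3],
    ![-4, 2, -3, 3, -2, 8, -2, 0, 4, 1, -2, 1, -2, -1, -5, 4, 0, 2, -6, 1, -3, 0, 1, -3, 4, -9],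
    ![-2, 2, -2, 1, 1, 4, -1, 0, 4, -1, 0, 1, -2, 0, -3, 4, 0, 1, -2, 0, -1, 1, 0, 1, 1, -5],
    ![-3, 2, -2, 2, -1, 7, -2, 0, 4, 1, -2, 1, -2, -1, -4, 3, 0, 1, -5, 1, -3, 0, 0, -2, 3, -8],
    ![-2, 1, -2, 0, 0, 2, -1, -1, 2, -1, 0, 0, -2, 0, -2, 3, 0, 1, -1, 0, 0, 1, 0, 1, 1, -3],
    ![0, 0, 0, -1, 1, -1, 0, 0, 0, -1, 0, 0, -1, 0, 0, 0, 0, -1, 1, -1, 0, 0, -1, 1, -1, 0]],
   ![![0, 0, 0, 0, 0, 0, 0, 0, 0, 0, 0, 0, 0, 0, 0, 0, 0, 0, 0, 0, 0, 0, 0, 0, 0, 0],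
    ![-1, 1, -1, 1, -1, 2, 0, 0, 1, 0, 0, 1, 0, 0, -1, 2, 0, 2, -1, 1, 0, 0, 1, 0, 2, -1],
    ![2, -1, 1, -1, 0, -3, 1, 0, -2, 0, 1, 0, 1, 0, 2, -2, 0, 0, 2, 0, 1, 0, 0, 1, -1, 4],
    ![4, -3, 3, -3, 0, -8, 2, 0, -6, 0, 1, -2, 2, 0, 5, -6, 0, -2, 5, -1, 2, -1, 0, 1, -3, 9],
    ![0, 0, 0, 0, -1, 1, -1, 0, 0, 0, -1, 0, 0, 0, 0, 0, 0, 0, -1, 1, -1, 0, 0, -1, 1, -1],
    ![2, -1, 2, 0, 0, -2, 1, 1, -2, 1, 0, 0, 2, 0, 2, -3, 0, -1, 1, 0, 0, -1, 0, -1, 0, 3],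
    ![-1, 0, -1, 1, -2, 2, 0, 0, 0, 1, -1, 0, 0, 0, 0, 1, 1, 2, -1, 2, 0, 0, 2, -1, 3, -1],
    ![1, -1, 1, 0, -1, -1, 0, 0, -2, 1, -1, -1, 1, -1, 1, -3, 0, -1, 0, 0, -1, -1, 0, -2, 0, 1],
    ![3, -2, 2, -2, 0, -6, 2, 0, -4, 0, 1, -1, 2, 0, 4, -4, 0, -1, 4, -1, 2, -1, 0, 1, -2, 7],
    ![-1, 0, 0, 1, -2, 3, -1, 0, 0, 1, -2, 0, 0, 0, 0, 0, 1, 1, -2, 2, -1, 0, 1, -2, 3, -2],
    ![1, -1, 0, 0, -1, -2, 1, 0, -2, 0, 1, 0, 1, 0, 1, -1, 0, 1, 1, 0, 1, -1, 1, 0, 0, 3],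
    ![3, -3, 2, -3, 0, -7, 1, 0, -5, -1, 0, -2, 1, 0, 4, -5, 0, -2, 4, -1, 1, -1, -1, 1, -3, 7],
    ![1, 0, 0, 0, 0, -1, 1, 0, -1, 0, 1, 0, 1, -1, 0, -1, -1, 0, 0, -1, 0, -1, 0, 0, -1, 1]]]

theorem cc_sq : ∀ i, cc i * cc i = 1 := by decide +kernel

theorem cc_sum : ∑ i, cc i = 0 := by decide +kernel

theorem cc_vv : ∀ α j, ∑ i, cc i * vv α i j = 0 := by decide +kernel

theorem rho_vv : ∀ α β j l, ∑ i, rho α j i * vv β i l = if α = β then ee j l else 0 := by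
  decide +kernel

theorem vv_ee : ∀ β i l, ∑ j, vv β i j * ee j l = vv β i l := by decide +kernel

theorem kappa0 : ∀ i α β i' α' β',
    (if α = β then -1 else 1) * (vv α' i' (blk i α.castSucc) *
      vv β' i' (if α = β then blk i 2 else blk i β.castSucc)) +
    (if α = β then -1 else 0) * (vv α' i' (blk i α.castSucc) * vv β' i' (blk i (α + 1).castSucc)) =
      if i' = i ∧ α' = α ∧ β' = β then 1 else 0 := by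
  decide +kernel

theorem kappa (i : Fin 26) (α β : Fin 2) : ∃ (j1 l1 j2 l2 : Fin 13) (e1 e2 : ℤ), ∀ i' α' β',
    e1 * (vv α' i' j1 * vv β' i' l1) + e2 * (vv α' i' j2 * vv β' i' l2) =
      if i' = i ∧ α' = α ∧ β' = β then 1 else 0 :=
  ⟨_, _, _, _, _, _, kappa0 i α β⟩

end Pool.Agent.P.MP_fd997c_al
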