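import Pool.Agent.P.MP_fd997c_al.Chase

set_option autoImplicit false

/-! Vanishing of the fourth Ext group into a ring with a self-injective reduction. -/

namespace Pool.Agent.P.MP_fd997c_al

open CategoryTheory CategoryTheory.Abelian

variable {R : Type} [CommRing R]

section
variable {A B C : Type} [AddCommGroup A] [Module R A] [AddCommGroup B] [Module R B]
  [AddCommGroup C] [Module R C]

/-- A short exact sequence given by elementwise conditions. -/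
structure SE (f : A →ₗ[R] B) (g : B →ₗ[R] C) : Prop where
  inj : ∀ x, f x = 0 → x = 0
  zero : ∀ x, g (f x) = 0
  ex : ∀ y, g y = 0 → ∃ x, f x = y
  surj : ∀ z, ∃ y, g y = z

/-- The associated short complex. -/
abbrev SE.sc {f : A →ₗ[R] B} {g : B →ₗ[R] C} (h : SE f g) : ShortComplex (ModuleCat.{0} R) :=
  ModuleCat.shortComplexOfCompEqZero f g (by ext x; simpa using h.zero x)

theorem SE.se {f : A →ₗ[R] B} {g : B →ₗ[R] C} (h : SE f g) : h.sc.ShortExact :=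
  ModuleCat.shortComplex_shortExact _
    (fun y => ⟨fun hy => h.ex y hy, by rintro ⟨x, rfl⟩; exact h.zero x⟩)
    ((injective_iff_map_eq_zero f).mpr h.inj) h.surj

theorem SE.pd {f : A →ₗ[R] B} {g : B →ₗ[R] C} (h : SE f g) (n : ℕ)
    (h1 : HasProjectiveDimensionLT (ModuleCat.of R A) n)
    (h2 : HasProjectiveDimensionLT (ModuleCat.of R B) (n + 1)) :
    HasProjectiveDimensionLT (ModuleCat.of R C) (n + 1) :=
  h.se.hasProjectiveDimensionLT_X₃ n h1 h2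

theorem SE.shift {f : A →ₗ[R] B} {g : B →ₗ[R] C} (h : SE f g) [Module.Projective R B]
    (Y : ModuleCat.{0} R) (n : ℕ) (hC : ∀ x : Ext (ModuleCat.of R C) Y (n + 2), x = 0)
    (x : Ext (ModuleCat.of R A) Y (n + 1)) : x = 0 := by
  obtain ⟨y, hy⟩ := Ext.contravariant_sequence_exact₁ h.se Y x (n₁ := n + 2) (by omega) (hC _)
  have : y = 0 := Ext.eq_zero_of_projective y
  rw [← hy, this, Ext.comp_zero]

theorem SE.extend {f : A →ₗ[R] B} {g : B →ₗ[R] C} (h : SE f g)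
    {Y : Type} [AddCommGroup Y] [Module R Y]
    (hC : ∀ x : Ext (ModuleCat.of R C) (ModuleCat.of R Y) 1, x = 0)
    (u : A →ₗ[R] Y) : ∃ v : B →ₗ[R] Y, ∀ x, v (f x) = u x := by
  obtain ⟨y, hy⟩ := Ext.contravariant_sequence_exact₁ h.se (ModuleCat.of R Y)
    (Ext.mk₀ (ModuleCat.ofHom u)) (n₁ := 1) rfl (hC _)
  obtain ⟨v, rfl⟩ := (Ext.mk₀_bijective _ _).2 y
  rw [Ext.mk₀_comp_mk₀] at hy
  have := (Ext.mk₀_bijective _ _).1 hy
  exact ⟨v.hom, fun x => by simpa using congrArg (fun w => w.hom x) this⟩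

theorem Step.toSE {a : R} {π : A →ₗ[R] B} (h : Step a π) :
    SE (a • (LinearMap.id : A →ₗ[R] A)) π :=
  ⟨fun x hx => h.reg x (by simpa using hx), fun x => by simpa using h.kill x,
    fun y hy => by simpa using h.ker y hy, h.surj⟩

theorem Step.delta {a : R} {π : A →ₗ[R] B} (h : Step a π) (hC : ∀ x : C, a • x = 0) (n : ℕ)
    (x : Ext (ModuleCat.of R C) (ModuleCat.of R A) (n + 1)) :
    ∃ y : Ext (ModuleCat.of R C) (ModuleCat.of R B) n, y.comp h.toSE.se.extClass rfl = x := by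
  refine Ext.covariant_sequence_exact₁ _ h.toSE.se x ?_ rfl
  have e1 : h.toSE.sc.f = a • 𝟙 (ModuleCat.of R A) := rfl
  have e2 : a • 𝟙 (ModuleCat.of R C) = 0 := by ext x; simpa using hC x
  have e3 : a • x = 0 := by
    rw [← Ext.mk₀_id_comp x, ← Ext.smul_comp, ← Ext.mk₀_smul, e2, Ext.mk₀_zero, Ext.zero_comp]
  rw [e1, Ext.mk₀_smul, Ext.comp_smul, Ext.comp_mk₀_id, e3]

theorem Step.desc {a : R} {π : A →ₗ[R] B} (h : Step a π) (ε : A →ₗ[R] C)
    (hC : ∀ x : C, a • x = 0) : ∃ ε' : B →ₗ[R] C, ∀ x, ε' (π x) = ε x := by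
  have hle : LinearMap.ker π ≤ LinearMap.ker ε := by
    intro x hx
    obtain ⟨z, rfl⟩ := h.ker x hx
    simp [hC]
  refine ⟨((LinearMap.ker π).liftQ ε hle) ∘ₗ (π.quotKerEquivOfSurjective h.surj).symm.toLinearMap,
    fun x => ?_⟩
  have : (π.quotKerEquivOfSurjective h.surj).symm (π x) = Submodule.Quotient.mk x := by
    rw [LinearEquiv.symm_apply_eq]; rfl
  simp [this]

theorem Step.kill' {a b : R} {π : A →ₗ[R] B} (h : Step a π) (hb : ∀ x : A, b • x = 0) (y : B) :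
    b • y = 0 := by
  obtain ⟨x, rfl⟩ := h.surj y
  rw [← map_smul, hb, map_zero]

theorem Step.kill'' {a : R} {π : A →ₗ[R] B} (h : Step a π) (y : B) : a • y = 0 := by
  obtain ⟨x, rfl⟩ := h.surj y
  rw [← map_smul, h.kill]

end

/-- Injectivity relative to modules killed by three elements. -/
def InjRel (a1 a2 a3 : R) (Y : Type) [AddCommGroup Y] [Module R Y] : Prop :=
  ∀ (A B : Type) [AddCommGroup A] [Module R A] [AddCommGroup B] [Module R B]
    (ι : A →ₗ[R] B) (β : A →ₗ[R] Y), (∀ b : B, a1 • b = 0) → (∀ b : B, a2 • b = 0) →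
    (∀ b : B, a3 • b = 0) → (∀ x, ι x = 0 → β x = 0) → ∃ e : B →ₗ[R] Y, ∀ x, e (ι x) = β x

variable {Y1 Y2 Y3 : Type} [AddCommGroup Y1] [Module R Y1] [AddCommGroup Y2] [Module R Y2]
  [AddCommGroup Y3] [Module R Y3] {a1 a2 a3 : R}
  {π1 : R →ₗ[R] Y1} {π2 : Y1 →ₗ[R] Y2} {π3 : Y2 →ₗ[R] Y3}

theorem ext_four (s1 : Step a1 π1) (s2 : Step a2 π2) (s3 : Step a3 π3)
    (hI : InjRel a1 a2 a3 Y3) {P N : Type} [AddCommGroup P] [Module R P] [Module.Finite R P]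
    [Module.Free R P] [AddCommGroup N] [Module R N] (ε : P →ₗ[R] N) (hε : ∀ n, ∃ p, ε p = n)
    (k1 : ∀ x : N, a1 • x = 0) (k2 : ∀ x : N, a2 • x = 0) (k3 : ∀ x : N, a3 • x = 0)
    (x : Ext (ModuleCat.of R N) (ModuleCat.of R R) 4) : x = 0 := by
  let D := Module.Dual R P
  have t1 := s1.hom D
  have t2 := s2.hom D
  have t3 := s3.hom D
  obtain ⟨ε1, h1⟩ := t1.desc (ε ∘ₗ (Module.evalEquiv R P).symm.toLinearMap) k1
  obtain ⟨ε2, h2⟩ := t2.desc ε1 k2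
  obtain ⟨ε3, h3⟩ := t3.desc ε2 k3
  have hs : ∀ n, ∃ w, ε3 w = n := by
    intro n
    obtain ⟨p, rfl⟩ := hε n
    refine ⟨_, (h3 _).trans ((h2 _).trans ((h1 (Module.evalEquiv R P p)).trans ?_))⟩
    exact congrArg ε ((Module.evalEquiv R P).symm_apply_apply p)
  have p0 : HasProjectiveDimensionLT (ModuleCat.of R (D →ₗ[R] R)) 1 := inferInstance
  have p1 := t1.toSE.pd 1 p0 (@hasProjectiveDimensionLT_of_ge _ _ _ _ 1 2 (by omega) p0)
  have p2 := t2.toSE.pd 2 p1 (@hasProjectiveDimensionLT_of_ge _ _ _ _ 2 3 (by omega) p1)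
  have p3 := t3.toSE.pd 3 p2 (@hasProjectiveDimensionLT_of_ge _ _ _ _ 3 4 (by omega) p2)
  have hS : SE (LinearMap.ker ε3).subtype ε3 :=
    ⟨fun x hx => by simpa using hx, fun x => x.2, fun y hy => ⟨⟨y, hy⟩, rfl⟩, hs⟩
  have w1 : ∀ w : D →ₗ[R] Y3, a1 • w = 0 := t3.kill' (t2.kill' t1.kill'')
  have w2 : ∀ w : D →ₗ[R] Y3, a2 • w = 0 := t3.kill' t2.kill''
  have w3 : ∀ w : D →ₗ[R] Y3, a3 • w = 0 := t3.kill''
  obtain ⟨y, rfl⟩ := Ext.contravariant_sequence_exact₃ hS.se (ModuleCat.of R R) x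
    (Ext.eq_zero_of_hasProjectiveDimensionLT _ 4 le_rfl) (n₀ := 3) rfl
  obtain ⟨y1, rfl⟩ := s1.delta (C := LinearMap.ker ε3) (fun z => Subtype.ext (w1 z.1)) 2 y
  obtain ⟨y2, rfl⟩ := s2.delta (C := LinearMap.ker ε3) (fun z => Subtype.ext (w2 z.1)) 1 y1
  obtain ⟨y3, rfl⟩ := s3.delta (C := LinearMap.ker ε3) (fun z => Subtype.ext (w3 z.1)) 0 y2
  obtain ⟨f, rfl⟩ := (Ext.mk₀_bijective _ _).2 y3
  obtain ⟨e, he⟩ := hI _ _ (LinearMap.ker ε3).subtype f.hom w1 w2 w3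
    (fun z hz => by rw [show z = 0 by simpa using hz, map_zero])
  have hf : f = hS.sc.f ≫ ModuleCat.ofHom e := by
    ext z; exact (he z).symm
  rw [hf, ← Ext.mk₀_comp_mk₀]
  rw [Ext.comp_assoc _ _ _ (zero_add 0) (zero_add 1) rfl,
    Ext.comp_assoc _ _ _ (zero_add 1) (show 1 + 1 = 2 from rfl) rfl,
    Ext.comp_assoc _ _ _ (zero_add 2) (show 2 + 1 = 3 from rfl) rfl]
  exact hS.se.extClass_comp_assoc _

section
variable {P0 P1 N : Type} [AddCommGroup P0] [Module R P0] [AddCommGroup P1] [Module R P1]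
  [AddCommGroup N] [Module R N]

theorem se_range (ε : P0 →ₗ[R] N) (d : P1 →ₗ[R] P0) (hz : ∀ q, ε (d q) = 0)
    (hex : ∀ p, ε p = 0 → ∃ q, d q = p) :
    SE (LinearMap.range d).subtype ε.rangeRestrict :=
  ⟨fun x hx => by simpa using hx,
    by rintro ⟨_, q, rfl⟩; exact Subtype.ext (by simpa using hz q),
    fun y hy => by
      obtain ⟨q, hq⟩ := hex y (by simpa using congrArg Subtype.val hy)
      exact ⟨⟨y, q, hq⟩, rfl⟩,
    ε.surjective_rangeRestrict⟩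

end

theorem van_four {N P0 P1 P2 P3 P4 P5 : Type} [AddCommGroup N] [Module R N]
    [AddCommGroup P0] [Module R P0] [AddCommGroup P1] [Module R P1]
    [AddCommGroup P2] [Module R P2] [AddCommGroup P3] [Module R P3]
    [AddCommGroup P4] [Module R P4] [AddCommGroup P5] [Module R P5]
    [Module.Projective R P0] [Module.Projective R P1] [Module.Projective R P2]
    (ε : P0 →ₗ[R] N) (d0 : P1 →ₗ[R] P0) (d1 : P2 →ₗ[R] P1) (d2 : P3 →ₗ[R] P2)
    (d3 : P4 →ₗ[R] P3) (d4 : P5 →ₗ[R] P4) (hε : ∀ n, ∃ p, ε p = n)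
    (z0 : ∀ q, ε (d0 q) = 0) (e0 : ∀ p, ε p = 0 → ∃ q, d0 q = p)
    (z1 : ∀ q, d0 (d1 q) = 0) (e1 : ∀ p, d0 p = 0 → ∃ q, d1 q = p)
    (z2 : ∀ q, d1 (d2 q) = 0) (e2 : ∀ p, d1 p = 0 → ∃ q, d2 q = p)
    (z3 : ∀ q, d2 (d3 q) = 0) (e3 : ∀ p, d2 p = 0 → ∃ q, d3 q = p)
    (e4 : ∀ p, d3 p = 0 → ∃ q, d4 q = p)
    (h : ∀ x : Ext (ModuleCat.of R N) (ModuleCat.of R R) 4, x = 0) : Van d3 d4 R := by
  have S0 : SE (LinearMap.range d0).subtype ε :=
    ⟨fun x hx => by simpa using hx, by rintro ⟨_, q, rfl⟩; exact z0 q,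
      fun y hy => by obtain ⟨q, hq⟩ := e0 y hy; exact ⟨⟨y, q, hq⟩, rfl⟩, hε⟩
  have h3 := S0.shift _ 2 h
  have h2 := (se_range d0 d1 z1 e1).shift _ 1 h3
  have h1 := (se_range d1 d2 z2 e2).shift _ 0 h2
  intro f hf
  have hle : LinearMap.ker d3 ≤ LinearMap.ker f := by
    intro p hp
    obtain ⟨q, rfl⟩ := e4 p hp
    exact hf q
  obtain ⟨v, hv⟩ := (se_range d2 d3 z3 e3).extend h1
    (((LinearMap.ker d3).liftQ f hle) ∘ₗ d3.quotKerEquivRange.symm.toLinearMap)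
  refine ⟨v, fun p => ?_⟩
  have := hv ⟨d3 p, p, rfl⟩
  have e : d3.quotKerEquivRange.symm ⟨d3 p, p, rfl⟩ = Submodule.Quotient.mk p := by
    rw [LinearEquiv.symm_apply_eq]; rfl
  simpa [e] using this.symm

end Pool.Agent.P.MP_fd997c_al
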