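import Pool.Agent.P.MP_fd997c_al.Modl

set_option autoImplicit false

/-! The inductive construction and the counterexample. -/

namespace Pool.Agent.P.MP_fd997c_al

open PowerSeries CategoryTheory TensorProduct

/-- Regular sequences, listed from the last element to the first. -/
def Reg {A : Type} [CommRing A] : List A → Prop
  | [] => True
  | a :: l => Reg l ∧ ∀ r, a * r ∈ Ideal.ofList l → r ∈ Ideal.ofList l

/-- The inductive hypothesis. -/
structure Good (k A : Type) [Field k] [CommRing A] [Algebra k A] (l : List A) (ν : Type)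
    (Z : Submodule A (ν → A)) : Prop where
  loc : IsLocalRing A
  noeth : IsNoetherianRing A
  reg : Reg l
  frob : ∃ lam : A →ₗ[k] k, ∀ y, (∀ r, lam (y * r) = 0) ↔ y ∈ Ideal.ofList l
  fin : Module.Finite k (A ⧸ (Ideal.ofList l).restrictScalars k)
  kill : ∀ a ∈ Ideal.ofList l, ∀ p, a • p ∈ Z
  ne : Z ≠ ⊤
  tp : TP Z

variable {k A : Type} [Field k] [CommRing A] [Algebra k A]

theorem good_base (k : Type) [Field k] : Good k k [] Unit ⊥ where
  loc := inferInstance
  noeth := inferInstance
  reg := trivial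
  frob := ⟨LinearMap.id, fun y => ⟨fun h => by simpa using h 1, fun h => by
    simp only [Ideal.ofList_nil, Ideal.mem_bot] at h
    simp [h]⟩⟩
  fin := inferInstance
  kill a ha p := by
    simp only [Ideal.ofList_nil, Ideal.mem_bot] at ha
    simp [ha]
  ne := bot_ne_top
  tp t h _ := by
    have : t = 0 := funext fun p => by simpa using h p
    rw [this]; exact Submodule.zero_mem _

theorem reg_map (l : List A) (h : Reg l) : Reg (l.map (cst : A →+* B A)) := by
  induction l with
  | nil => trivial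
  | cons a l ih =>
    refine ⟨ih h.1, fun r hr => (mem_ext l r).mpr fun n i => h.2 _ ?_⟩
    rw [← co_cst_mul]
    exact (mem_ext l _).mp hr n i

/-- Coefficients as linear maps. -/
noncomputable def coL (k : Type) [Field k] [Algebra k A] (n : ℕ) (i : Fin 26) : B A →ₗ[k] A where
  toFun f := co n f i
  map_add' f g := co_add n f g i
  map_smul' s f := by
    have e : (s • f).1 i = s • f.1 i := rfl
    simp only [co, RingHom.id_apply, e]
    exact LinearMap.map_smul_of_tower (coeff n : PowerSeries A →ₗ[A] A) s (f.1 i)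

theorem co_mul_sq (f : B A) (i j : Fin 26) (h : PowerSeries A) :
    co 3 (f * sq (Pi.single i h)) j = if j = i then coeff 1 (f.1 i * h) else 0 := by
  simp only [co, Subalgebra.coe_mul, Pi.mul_apply, sq_val, mul_left_comm _ (X ^ 2),
    coeff_X_pow_mul', Pi.single_apply]
  split_ifs with h1 h2 h2 <;> simp_all

theorem Good.step {l : List A} {ν : Type} [Fintype ν] [DecidableEq ν] {Z : Submodule A (ν → A)}
    (h : Good k A l ν Z) : Good k (B A) (xx :: l.map cst) (Fin 2 × ν) (ZB Z) where
  loc := by have := h.loc; exact local_B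
  noeth := by have := h.noeth; exact noeth_B
  reg := ⟨reg_map l h.reg, fun r hr => (mem_ext l r).mpr fun n i => by
    have := (mem_ext l _).mp hr (n + 2) i
    simpa [co_xx_mul] using this⟩
  frob := by
    obtain ⟨lam, hl⟩ := h.frob
    refine ⟨lam ∘ₗ ∑ i, cc i • coL k 3 i, fun y => ?_⟩
    have ev : ∀ f : B A, (lam ∘ₗ ∑ i, cc i • coL k 3 i) f = lam (∑ i, (cc i : A) * co 3 f i) := by
      intro f
      simp [coL, LinearMap.sum_apply]
    simp only [ev]
    have un : ∀ (i : Fin 26) (a : A), (cc i : A) * a ∈ Ideal.ofList l → a ∈ Ideal.ofList l := by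
      intro i a ha
      have := Ideal.mul_mem_left _ (cc i : A) ha
      rwa [← mul_assoc, cc_sqA, one_mul] at this
    constructor
    · intro hy
      refine mem_new l y (un 0 _ ((hl _).mp fun r => ?_)) (fun i => un i _ ((hl _).mp fun r => ?_))
        (fun i => (hl _).mp fun r => ?_) ((hl _).mp fun r => ?_)
      · have := hy (sq (Pi.single 0 (X * C r)))
        simp only [co_mul_sq, mul_ite, mul_zero, Finset.sum_ite_eq', Finset.mem_univ,
          if_true, mul_left_comm _ X, coeff_succ_X_mul, coeff_mul_C] at this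
        rw [mul_assoc]; exact this
      · have := hy (sq (Pi.single i (C r)))
        simp only [co_mul_sq, mul_ite, mul_zero, Finset.sum_ite_eq', Finset.mem_univ,
          if_true, coeff_mul_C] at this
        rw [mul_assoc]; exact this
      · have := hy (cst (r * cc i) * om i)
        have e : ∀ j, (cc j : A) * co 3 (y * (cst (r * cc i) * om i)) j =
            (if j = i then co 2 y i * r else 0) - (if j = 0 then co 2 y 0 * r else 0) := by
          intro j
          have e1 : co 3 (y * (cst (r * cc i) * om i)) j = r * cc i * (co 2 y j *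
              ((if j = i then 1 else 0) - (if j = 0 then (cc i : A) * cc 0 else 0))) := by
            rw [mul_left_comm, co_cst_mul]
            simp only [co, om, Subalgebra.coe_mul, Pi.mul_apply, lin_val, mul_left_comm _ X,
              coeff_succ_X_mul, coeff_mul_C]
          rw [e1]
          have s1 := cc_sqA A i
          have s0 := cc_sqA A 0
          split_ifs with h1 h2 h2
          · subst h1; subst h2; linear_combination (-(r * co 2 y 0) * cc 0 * cc 0) * s0
          · subst h1; linear_combination (r * co 2 y j) * s1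
          · subst h2
            linear_combination (-(r * co 2 y 0) * cc 0 * cc 0) * s1 - (r * co 2 y 0) * s0
          · ring
        simp only [e, Finset.sum_sub_distrib, Finset.sum_ite_eq', Finset.mem_univ, if_true] at this
        rw [sub_mul]; exact this
      · have := hy (cst r)
        simp only [mul_comm y, co_cst_mul, mul_left_comm _ r, ← Finset.mul_sum] at this
        rw [mul_comm]; exact this
    · intro hy r
      have := (hl _).mpr (new_mem l _ (Ideal.mul_mem_right r _ hy)) 1
      rwa [mul_one] at this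
  fin := by
    have := h.fin
    let Ψ : B A →ₗ[k] (Fin 4 → Fin 26 → A ⧸ (Ideal.ofList l).restrictScalars k) :=
      LinearMap.pi fun n => LinearMap.pi fun i =>
        ((Ideal.ofList l).restrictScalars k).mkQ ∘ₗ coL k n i
    have hle : LinearMap.ker Ψ ≤ (Ideal.ofList (xx :: l.map cst)).restrictScalars k := by
      intro f hf
      have hc : ∀ (n : Fin 4) i, co n f i ∈ Ideal.ofList l := fun n i =>
        (Submodule.Quotient.mk_eq_zero _).mp (congrFun (congrFun hf n) i)
      exact mem_new l f (hc 0 0) (hc 1) (fun i => Submodule.sub_mem _ (hc 2 i) (hc 2 0))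
        (Submodule.sum_mem _ fun i _ => Ideal.mul_mem_left _ _ (hc 3 i))
    have : Module.Finite k (B A ⧸ LinearMap.ker Ψ) := Module.Finite.equiv Ψ.quotKerEquivRange.symm
    exact Module.Finite.of_surjective (Submodule.factor hle) (Submodule.factor_surjective hle)
  kill a ha p := by
    rw [Ideal.ofList_cons, Submodule.mem_sup] at ha
    obtain ⟨y, hy, z, hz, rfl⟩ := ha
    obtain ⟨u, rfl⟩ := Ideal.mem_span_singleton'.mp hy
    have hz' := (mem_ext l z).mp hz
    refine ⟨fun α => ?_, 0, fun α i => ?_⟩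
    · convert h.kill _ (hz' 0 0) (fun q => co 0 (p (α, q)) 0) using 1
      funext q
      simp [add_mul, mul_comm u, mul_assoc, co_xx_mul, co0_mul z]
    · convert Z.add_mem (h.kill _ (hz' 0 0) (fun q => co 1 (p (α, q)) i))
        (h.kill _ (hz' 1 i) (fun q => co 0 (p (α, q)) 0)) using 1
      funext q
      simp [add_mul, mul_comm u, mul_assoc, co_xx_mul, co1_mul z]
  ne hZ := by
    refine h.ne (eq_top_iff.mpr fun p _ => ?_)
    have : (fun x : Fin 2 × ν => (cst (p x.2) : B A)) ∈ ZB Z := hZ ▸ Submodule.mem_top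
    simpa [co_cst] using this.1 0
  tp := tp_ZB Z h.tp

section
variable {I : Ideal A} {lam : A →ₗ[k] k} (hl : ∀ y, (∀ r, lam (y * r) = 0) ↔ y ∈ I)
  (hf : Module.Finite k (A ⧸ I.restrictScalars k))
include hl hf

theorem frob_surj (μ : A →ₗ[k] k) (hμ : ∀ y ∈ I, μ y = 0) : ∃ y, ∀ r, μ r = lam (y * r) := by
  let Φ : A →ₗ[k] Module.Dual k A := (LinearMap.mul k A).compr₂ lam
  have hk : LinearMap.ker Φ = I.restrictScalars k := by
    ext y
    rw [LinearMap.mem_ker, Submodule.restrictScalars_mem, ← hl, LinearMap.ext_iff]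
    rfl
  have e1 := (I.restrictScalars k).dualQuotEquivDualAnnihilator
  have : Module.Finite k (I.restrictScalars k).dualAnnihilator := Module.Finite.equiv e1
  have hle : LinearMap.range Φ ≤ (I.restrictScalars k).dualAnnihilator := by
    rintro _ ⟨y, rfl⟩
    refine (Submodule.mem_dualAnnihilator _).mpr fun w hw => ?_
    have := (hl w).mpr hw y
    rw [mul_comm] at this
    exact this
  have heq := Submodule.eq_of_le_of_finrank_eq hle (by
    rw [← Φ.quotKerEquivRange.finrank_eq, hk, ← e1.finrank_eq, Subspace.dual_finrank_eq])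
  obtain ⟨y, hy⟩ : μ ∈ LinearMap.range Φ := heq ▸ (Submodule.mem_dualAnnihilator _).mpr hμ
  exact ⟨y, fun r => by rw [← hy]; rfl⟩

theorem frob_hom {N : Type} [AddCommGroup N] [Module A N] [Module k N] [IsScalarTower k A N]
    (hN : ∀ a ∈ I, ∀ n : N, a • n = 0) (ℓ : N →ₗ[k] k) :
    ∃ g : N →ₗ[A] A ⧸ I, ∀ n, ∃ y, g n = Ideal.Quotient.mk I y ∧ ∀ r, lam (y * r) = ℓ (r • n) := by
  have : ∀ n : N, ∃ y, ∀ r, ℓ (r • n) = lam (y * r) := fun n =>
    frob_surj hl hf (ℓ ∘ₗ (LinearMap.toSpanSingleton A N n).restrictScalars k)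
      (fun y hy => by simp [hN y hy])
  choose y hy using this
  refine ⟨⟨⟨fun n => Ideal.Quotient.mk I (y n), fun a b => ?_⟩, fun c a => ?_⟩,
    fun n => ⟨y n, rfl, fun r => (hy n r).symm⟩⟩
  · rw [← map_add, Ideal.Quotient.eq, ← hl]
    intro r
    rw [sub_mul, add_mul, map_sub, map_add, ← hy, ← hy, ← hy, smul_add, map_add, sub_self]
  · change Ideal.Quotient.mk I _ = Ideal.Quotient.mk I (c * y a)
    rw [Ideal.Quotient.eq, ← hl]
    intro r
    rw [sub_mul, map_sub, ← hy, mul_comm c, mul_assoc, ← hy, smul_smul, mul_comm c, sub_self]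

theorem frob_inj {a1 a2 a3 : A} (hI : I = Ideal.ofList [a3, a2, a1]) :
    InjRel a1 a2 a3 (A ⧸ I) := by
  intro M N _ _ _ _ ι β k1 k2 k3 hk
  letI : Module k M := Module.compHom M (algebraMap k A)
  letI : Module k N := Module.compHom N (algebraMap k A)
  haveI : IsScalarTower k A M := IsScalarTower.of_compHom k A M
  haveI : IsScalarTower k A N := IsScalarTower.of_compHom k A N
  have hN : ∀ a ∈ I, ∀ n : N, a • n = 0 := by
    intro a ha n
    rw [hI] at ha
    induction ha using Submodule.span_induction with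
    | mem x hx =>
      simp only [List.mem_cons, List.not_mem_nil, or_false, Set.mem_setOf_eq] at hx
      rcases hx with rfl | rfl | rfl
      exacts [k3 n, k2 n, k1 n]
    | zero => simp
    | add x y _ _ hx hy => rw [add_smul, hx, hy, add_zero]
    | smul c x _ hx => rw [smul_eq_mul, mul_smul, hx, smul_zero]
  let lb : (A ⧸ I) →ₗ[k] k := ((I.restrictScalars k).liftQ lam (fun y hy => by
    simpa using (hl y).mpr hy 1)) ∘ₗ (Submodule.Quotient.restrictScalarsEquiv k I).symm.toLinearMap
  have hlb : ∀ y, lb (Ideal.Quotient.mk I y) = lam y := fun y => rfl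
  have hmem : lb ∘ₗ β.restrictScalars k ∈ LinearMap.range (ι.restrictScalars k).dualMap := by
    rw [LinearMap.range_dualMap_eq_dualAnnihilator_ker]
    exact (Submodule.mem_dualAnnihilator _).mpr fun w hw => by
      have := hk w hw
      simp [this]
  obtain ⟨ℓ, hℓ⟩ := hmem
  obtain ⟨g, hg⟩ := frob_hom hl hf hN ℓ
  refine ⟨g, fun x => ?_⟩
  obtain ⟨y, hy, hy'⟩ := hg (ι x)
  obtain ⟨y', e⟩ := Ideal.Quotient.mk_surjective (β x)
  rw [hy, ← e, Ideal.Quotient.eq, ← hl]
  intro r
  have := LinearMap.congr_fun hℓ (r • x)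
  simp only [LinearMap.dualMap_apply, LinearMap.restrictScalars_apply, LinearMap.comp_apply,
    map_smul, ← e] at this
  rw [sub_mul, map_sub, hy', this, mul_comm y', ← hlb, sub_eq_zero]
  rfl

end

theorem step_of {Y Y' : Type} [AddCommGroup Y] [Module A Y] [AddCommGroup Y'] [Module A Y']
    {a : A} {l : List A} (hr : Reg (a :: l)) (q : A →ₗ[A] Y) (π : Y →ₗ[A] Y')
    (s1 : ∀ y, ∃ r, q r = y) (s2 : ∀ y, ∃ r, π (q r) = y)
    (k1 : ∀ r, q r = 0 ↔ r ∈ Ideal.ofList l) (k2 : ∀ r, π (q r) = 0 ↔ r ∈ Ideal.ofList (a :: l)) :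
    Step a π where
  surj y := by obtain ⟨r, hr⟩ := s2 y; exact ⟨_, hr⟩
  ker y hy := by
    obtain ⟨r, rfl⟩ := s1 y
    rw [k2, Ideal.ofList_cons, Submodule.mem_sup] at hy
    obtain ⟨y, hy, z, hz, rfl⟩ := hy
    obtain ⟨u, rfl⟩ := Ideal.mem_span_singleton'.mp hy
    exact ⟨q u, by rw [map_add, (k1 z).mpr hz, add_zero, ← map_smul, smul_eq_mul, mul_comm]⟩
  kill y := by
    obtain ⟨r, rfl⟩ := s1 y
    rw [← map_smul, k2]
    exact Ideal.mul_mem_right _ _ (Ideal.subset_span (by simp))
  reg y hy := by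
    obtain ⟨r, rfl⟩ := s1 y
    rw [← map_smul, k1] at hy
    exact (k1 r).mpr (hr.2 r hy)

theorem Good.counter {a1 a2 a3 : A} {ν : Type} [Fintype ν] [DecidableEq ν]
    {Z : Submodule A (ν → A)} (h : Good k A [a3, a2, a1] ν Z) :
    ∃ (M : Type) (_ : AddCommGroup M) (_ : Module A M), Module.Finite A M ∧
      HasProjectiveDimensionLE (ModuleCat.of A M) 2 ∧
      (∀ r ∈ nonZeroDivisors A, ∀ x : M ⊗[A] M, r • x = 0 → x = 0) ∧
      ¬ Module.IsReflexive A M := by
  have := h.noeth
  obtain ⟨lam, hl⟩ := h.frob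
  have le1 : Ideal.ofList [a1] ≤ Ideal.ofList [a2, a1] := by
    rw [Ideal.ofList_cons a2]; exact le_sup_right
  have le2 : Ideal.ofList [a2, a1] ≤ Ideal.ofList [a3, a2, a1] := by
    rw [Ideal.ofList_cons a3]; exact le_sup_right
  have s1 : Step a1 (Ideal.ofList [a1]).mkQ := step_of h.reg.1.1 LinearMap.id _
    (fun y => ⟨y, rfl⟩) (Submodule.mkQ_surjective _) (by simp)
    (fun r => Submodule.Quotient.mk_eq_zero _)
  have s2 : Step a2 (Submodule.factor le1) := step_of h.reg.1 (Ideal.ofList [a1]).mkQ _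
    (Submodule.mkQ_surjective _) (Submodule.mkQ_surjective (Ideal.ofList [a2, a1]))
    (fun r => Submodule.Quotient.mk_eq_zero _) (fun r => Submodule.Quotient.mk_eq_zero _)
  have s3 : Step a3 (Submodule.factor le2) := step_of h.reg (Ideal.ofList [a2, a1]).mkQ _
    (Submodule.mkQ_surjective _) (Submodule.mkQ_surjective (Ideal.ofList [a3, a2, a1]))
    (fun r => Submodule.Quotient.mk_eq_zero _) (fun r => Submodule.Quotient.mk_eq_zero _)
  refine thmA s1 s2 s3 (frob_inj hl h.fin rfl) Z (h.kill _ (Ideal.subset_span (by simp)))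
    (h.kill _ (Ideal.subset_span (by simp))) (h.kill _ (Ideal.subset_span (by simp))) h.tp ?_
  have : Nontrivial ((ν → A) ⧸ Z) := Submodule.Quotient.nontrivial_iff.mpr h.ne
  obtain ⟨n, hn⟩ := exists_ne (0 : (ν → A) ⧸ Z)
  obtain ⟨ℓ, hℓ⟩ := Module.Projective.exists_dual_ne_zero k hn
  obtain ⟨g, hg⟩ := frob_hom hl h.fin (N := (ν → A) ⧸ Z) (fun a ha x => by
    obtain ⟨t, rfl⟩ := Z.mkQ_surjective x
    rw [← map_smul, Submodule.mkQ_apply, Submodule.Quotient.mk_eq_zero]
    exact h.kill a ha t) ℓ
  refine ⟨g ∘ₗ Z.mkQ, fun h0 => hℓ ?_, fun z hz => ?_⟩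
  · obtain ⟨t, rfl⟩ := Z.mkQ_surjective n
    obtain ⟨y, hy, hy'⟩ := hg (Z.mkQ t)
    have e : g (Z.mkQ t) = 0 := LinearMap.congr_fun h0 t
    rw [e, eq_comm, Ideal.Quotient.eq_zero_iff_mem] at hy
    have := hy' 1
    rw [one_smul, (hl y).mpr hy] at this
    exact this.symm
  · rw [LinearMap.comp_apply, Submodule.mkQ_apply, (Submodule.Quotient.mk_eq_zero _).mpr hz,
      map_zero]

/-- The inductive hypothesis for a sequence of length `n`, with the ring hidden. -/
def Ex (k : Type) [Field k] (n : ℕ) : Prop :=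
  ∃ (A : Type) (_ : CommRing A) (_ : Algebra k A) (l : List A) (ν : Type) (_ : Fintype ν)
    (_ : DecidableEq ν) (Z : Submodule A (ν → A)), l.length = n ∧ Good k A l ν Z

theorem ex_all (k : Type) [Field k] (n : ℕ) : Ex k n := by
  induction n with
  | zero => exact ⟨k, inferInstance, inferInstance, [], Unit, inferInstance, inferInstance, ⊥, rfl,
      good_base k⟩
  | succ n ih =>
    obtain ⟨A, _, _, l, ν, _, _, Z, hl, h⟩ := ih
    exact ⟨B A, inferInstance, inferInstance, _, _, inferInstance, inferInstance, _,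
      by simp [hl], h.step⟩

theorem main (k : Type) [Field k] : ∃ (R : Type) (_ : CommRing R) (_ : Algebra k R),
    IsNoetherianRing R ∧ IsLocalRing R ∧
    ∃ (M : Type) (_ : AddCommGroup M) (_ : Module R M), Module.Finite R M ∧
      HasProjectiveDimensionLE (ModuleCat.of R M) 2 ∧
      (∀ r ∈ nonZeroDivisors R, ∀ x : M ⊗[R] M, r • x = 0 → x = 0) ∧
      ¬ Module.IsReflexive R M := by
  obtain ⟨A, _, _, l, ν, _, _, Z, hl, h⟩ := ex_all k 3
  obtain ⟨a3, a2, a1, rfl⟩ := List.length_eq_three.mp hl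
  exact ⟨A, inferInstance, inferInstance, h.noeth, h.loc, h.counter⟩

end Pool.Agent.P.MP_fd997c_al
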