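import Pool.Agent.P.MP_fd997c_al.Four

set_option autoImplicit false

/-! The transpose of the first syzygy of a module with vanishing self-Tor. -/

namespace Pool.Agent.P.MP_fd997c_al

open CategoryTheory TensorProduct

variable {R : Type} [CommRing R]

theorem exists_cover [IsNoetherianRing R] {P : Type} [AddCommGroup P] [Module R P]
    [Module.Finite R P] (K : Submodule R P) :
    ∃ (m : ℕ) (d : (Fin m → R) →ₗ[R] P), (∀ q, d q ∈ K) ∧ ∀ p ∈ K, ∃ q, d q = p := by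
  obtain ⟨m, f, hf⟩ := Module.Finite.exists_fin' R K
  refine ⟨m, K.subtype ∘ₗ f, fun q => (f q).2, fun p hp => ?_⟩
  obtain ⟨q, hq⟩ := hf ⟨p, hp⟩
  exact ⟨q, by simp [hq]⟩

/-- Vanishing of the first self-Tor of `(ν → R) ⧸ Z`, in matrix form. -/
def TP {ν : Type} (Z : Submodule R (ν → R)) : Prop :=
  ∀ t : ν → ν → R, (∀ p, t p ∈ Z) → (∀ q, (fun p => t p q) ∈ Z) →
    t ∈ Submodule.span R {t : ν → ν → R | ∃ z ∈ Z, ∃ z' ∈ Z, t = fun p q => z p * z' q}

/-- Factor a map through the range of another. -/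
theorem exists_factor {A B C : Type} [AddCommGroup A] [Module R A] [AddCommGroup B] [Module R B]
    [AddCommGroup C] [Module R C] (d : A →ₗ[R] B) (f : A →ₗ[R] C) (h : ∀ x, d x = 0 → f x = 0) :
    ∃ g : LinearMap.range d →ₗ[R] C, ∀ x, g ⟨d x, x, rfl⟩ = f x := by
  refine ⟨((LinearMap.ker d).liftQ f (fun x hx => h x hx)) ∘ₗ d.quotKerEquivRange.symm.toLinearMap,
    fun x => ?_⟩
  have e : d.quotKerEquivRange.symm ⟨d x, x, rfl⟩ = Submodule.Quotient.mk x := by
    rw [LinearEquiv.symm_apply_eq]; rfl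
  simp [e]

/-- The outer product of two vectors. -/
def outer (ν : Type) : (ν → R) →ₗ[R] (ν → R) →ₗ[R] (ν → ν → R) :=
  LinearMap.mk₂ R (fun z z' p q => z p * z' q)
    (fun _ _ _ => by funext p q; simp [add_mul]) (fun _ _ _ => by funext p q; simp [mul_assoc])
    (fun _ _ _ => by funext p q; simp [mul_add])
    (fun _ _ _ => by funext p q; simp [mul_left_comm])

theorem exa_zero {ν : Type} [Fintype ν] [DecidableEq ν] {a1 a2 a3 : R} {Y : Type}
    [AddCommGroup Y] [Module R Y] (hI : InjRel a1 a2 a3 Y) {P1 P2 : Type}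
    [AddCommGroup P1] [Module R P1] [AddCommGroup P2] [Module R P2]
    (d0 : P1 →ₗ[R] (ν → R)) (d1 : P2 →ₗ[R] P1) (e1 : ∀ p, d0 p = 0 → ∃ q, d1 q = p)
    (k1 : ∀ p, a1 • p ∈ LinearMap.range d0) (k2 : ∀ p, a2 • p ∈ LinearMap.range d0)
    (k3 : ∀ p, a3 • p ∈ LinearMap.range d0) (hT : TP (LinearMap.range d0)) :
    Exa (0 : (ν → R) →ₗ[R] PUnit) d0 (LinearMap.lcomp R Y d0) (LinearMap.lcomp R Y d1) := by
  rintro f hf ⟨u, hu⟩
  set Z := LinearMap.range d0 with hZ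
  have hf1 : ∀ p q, f p (d1 q) = 0 := fun p q => by
    have := LinearMap.congr_fun (hu p) q
    rw [LinearMap.zero_apply, map_zero] at this
    exact this
  obtain ⟨b, hb⟩ := exists_factor d0 f.flip (fun x hx => by
    obtain ⟨q, rfl⟩ := e1 x hx
    exact LinearMap.ext fun p => hf1 p q)
  let Rw : Submodule R (ν → ν → R) := Submodule.pi Set.univ (fun _ => Z)
  let Cl : Submodule R (ν → ν → R) :=
    { carrier := {t | ∀ q, (fun p => t p q) ∈ Z}
      add_mem' := fun ha hb q => Z.add_mem (ha q) (hb q)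
      zero_mem' := fun q => Z.zero_mem
      smul_mem' := fun c t ht q => Z.smul_mem c (ht q) }
  let row : ν → (Rw →ₗ[R] Z) := fun p =>
    ((LinearMap.proj p : (ν → ν → R) →ₗ[R] (ν → R)) ∘ₗ Rw.subtype).codRestrict Z
      (fun t => t.2 p trivial)
  let β : Rw →ₗ[R] Y := ∑ p, (LinearMap.applyₗ (Pi.single p (1 : R))) ∘ₗ b ∘ₗ row p
  have hβ : ∀ (z : ν → R) (z' : Z) (h : outer ν z z'.1 ∈ Rw), β ⟨_, h⟩ = b z' z := by
    intro z z' h
    have e : ∀ p, row p ⟨_, h⟩ = z p • z' := fun p => Subtype.ext (by funext q; simp [row, outer])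
    simp only [β, LinearMap.sum_apply, LinearMap.comp_apply, e, map_smul,
      LinearMap.applyₗ_apply_apply]
    conv_rhs => rw [pi_eq_sum_univ' z]
    simp only [map_sum, map_smul]
  have hout : ∀ (z : ν → R) (z' : ν → R), z' ∈ Z → outer ν z z' ∈ Rw := fun z z' h p _ => by
    have : outer ν z z' p = z p • z' := by funext q; simp [outer]
    rw [this]; exact Z.smul_mem _ h
  have hout' : ∀ (z : ν → R) (z' : ν → R), z ∈ Z → outer ν z z' ∈ Cl := fun z z' h q => by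
    have : (fun p => outer ν z z' p q) = z' q • z := by funext p; simp [outer, mul_comm]
    rw [this]; exact Z.smul_mem _ h
  have hkill : ∀ a : R, (∀ p, a • p ∈ Z) → ∀ x : (ν → ν → R) ⧸ Cl, a • x = 0 := by
    intro a ha x
    obtain ⟨t, rfl⟩ := Cl.mkQ_surjective x
    rw [← map_smul, Submodule.mkQ_apply, Submodule.Quotient.mk_eq_zero]
    exact fun q => ha (fun p => t p q)
  obtain ⟨e, he⟩ := hI Rw _ (Cl.mkQ ∘ₗ Rw.subtype) β (hkill _ k1) (hkill _ k2) (hkill _ k3) (by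
    rintro ⟨t, ht⟩ h0
    have hc : t ∈ Cl := (Submodule.Quotient.mk_eq_zero _).mp h0
    have hsp := hT t (fun p => ht p trivial) hc
    have key : ∀ s ∈ Submodule.span R
        {t : ν → ν → R | ∃ z ∈ Z, ∃ z' ∈ Z, t = fun p q => z p * z' q},
        ∃ h : s ∈ Rw, β ⟨s, h⟩ = 0 := by
      intro s hs
      induction hs using Submodule.span_induction with
      | mem x hx =>
        obtain ⟨z, ⟨w, rfl⟩, z', ⟨w', rfl⟩, rfl⟩ := hx
        refine ⟨hout (d0 w) (d0 w') ⟨w', rfl⟩, ?_⟩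
        refine (hβ (d0 w) ⟨d0 w', w', rfl⟩ _).trans ?_
        rw [hb]; simp [hf]
      | zero => exact ⟨Rw.zero_mem, map_zero β⟩
      | add x y _ _ hx hy =>
        obtain ⟨h1, h2⟩ := hx
        obtain ⟨h3, h4⟩ := hy
        refine ⟨Rw.add_mem h1 h3, ?_⟩
        have : β (⟨x, h1⟩ + ⟨y, h3⟩) = 0 := by rw [map_add, h2, h4, add_zero]
        exact this
      | smul c x _ hx =>
        obtain ⟨h1, h2⟩ := hx
        refine ⟨Rw.smul_mem c h1, ?_⟩
        have : β (c • ⟨x, h1⟩) = 0 := by rw [map_smul, h2, smul_zero]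
        exact this
    exact (key t hsp).2)
  refine ⟨(outer ν).compr₂ (e ∘ₗ Cl.mkQ), 0, fun q => ?_, fun p => ?_⟩
  · refine LinearMap.ext fun p => ?_
    have : Cl.mkQ (outer ν (d0 q) p) = 0 :=
      (Submodule.Quotient.mk_eq_zero _).mpr (hout' _ _ ⟨q, rfl⟩)
    simp only [LinearMap.compr₂_apply, LinearMap.comp_apply, this, map_zero, LinearMap.zero_apply]
  · refine LinearMap.ext fun q => ?_
    have h1 := he ⟨_, hout p (d0 q) ⟨q, rfl⟩⟩
    rw [hβ p ⟨d0 q, q, rfl⟩, hb] at h1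
    simpa using h1.symm

theorem dth_nat {P P' M : Type} [AddCommGroup P] [Module R P] [AddCommGroup P'] [Module R P']
    [AddCommGroup M] [Module R M] (d : P' →ₗ[R] P) (t : Module.Dual R P ⊗[R] M) (q : P') :
    dualTensorHom R P' M (LinearMap.rTensor M (LinearMap.lcomp R R d) t) q =
      dualTensorHom R P M t (d q) := by
  induction t using TensorProduct.induction_on with
  | zero => simp
  | tmul f m => simp
  | add x y hx hy => simp [hx, hy]

theorem thmA [IsNoetherianRing R] {Y1 Y2 Y3 : Type} [AddCommGroup Y1] [Module R Y1]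
    [AddCommGroup Y2] [Module R Y2] [AddCommGroup Y3] [Module R Y3] {a1 a2 a3 : R}
    {π1 : R →ₗ[R] Y1} {π2 : Y1 →ₗ[R] Y2} {π3 : Y2 →ₗ[R] Y3}
    (s1 : Step a1 π1) (s2 : Step a2 π2) (s3 : Step a3 π3) (hI : InjRel a1 a2 a3 Y3)
    {ν : Type} [Fintype ν] [DecidableEq ν] (Z : Submodule R (ν → R))
    (k1 : ∀ p, a1 • p ∈ Z) (k2 : ∀ p, a2 • p ∈ Z) (k3 : ∀ p, a3 • p ∈ Z) (hT : TP Z)
    (hne : ∃ f : (ν → R) →ₗ[R] Y3, f ≠ 0 ∧ ∀ z ∈ Z, f z = 0) :
    ∃ (M : Type) (_ : AddCommGroup M) (_ : Module R M), Module.Finite R M ∧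
      HasProjectiveDimensionLE (ModuleCat.of R M) 2 ∧
      (∀ r ∈ nonZeroDivisors R, ∀ x : M ⊗[R] M, r • x = 0 → x = 0) ∧
      ¬ Module.IsReflexive R M := by
  obtain ⟨m1, d0, z0, e0⟩ := exists_cover Z
  obtain ⟨m2, d1, z1, e1⟩ := exists_cover (LinearMap.ker d0)
  obtain ⟨m3, d2, z2, e2⟩ := exists_cover (LinearMap.ker d1)
  obtain ⟨m4, d3, z3, e3⟩ := exists_cover (LinearMap.ker d2)
  obtain ⟨m5, d4, z4, e4⟩ := exists_cover (LinearMap.ker d3)
  simp only [LinearMap.mem_ker] at z1 e1 z2 e2 z3 e3 z4 e4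
  have hZ : Z = LinearMap.range d0 := by
    ext p; exact ⟨fun h => e0 p h, by rintro ⟨q, rfl⟩; exact z0 q⟩
  have K0 : ∀ a : R, (∀ p, a • p ∈ Z) → Kl a (0 : (ν → R) →ₗ[R] PUnit) d0 := fun a ha =>
    ⟨0, fun p => by simpa using e0 _ (ha p)⟩
  have K1 : ∀ a : R, (∀ p, a • p ∈ Z) → Kl a d0 d1 := fun a ha =>
    (K0 a ha).next (fun _ => rfl) e1
  have K2 : ∀ a : R, (∀ p, a • p ∈ Z) → Kl a d1 d2 := fun a ha => (K1 a ha).next z1 e2
  have K3 : ∀ a : R, (∀ p, a • p ∈ Z) → Kl a d2 d3 := fun a ha => (K2 a ha).next z2 e3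
  have v00 : Van (0 : (ν → R) →ₗ[R] PUnit) d0 R := van_zero s1 (K0 _ k1)
  have v01 : Van (0 : (ν → R) →ₗ[R] PUnit) d0 Y1 := van_zero s2 (K0 _ k2)
  have v02 : Van (0 : (ν → R) →ₗ[R] PUnit) d0 Y2 := van_zero s3 (K0 _ k3)
  have v11 : Van d0 d1 Y1 := van_up s2 (K1 _ k2) (fun _ => rfl) v02
  have v10 : Van d0 d1 R := van_up s1 (K1 _ k1) (fun _ => rfl) v01
  have v20 : Van d1 d2 R := van_up s1 (K2 _ k1) z1 v11
  have hq : ∀ a : R, (∀ p, a • p ∈ Z) → ∀ x : (ν → R) ⧸ Z, a • x = 0 := by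
    intro a ha x
    obtain ⟨t, rfl⟩ := Z.mkQ_surjective x
    rw [← map_smul, Submodule.mkQ_apply, Submodule.Quotient.mk_eq_zero]
    exact ha t
  have v40 : Van d3 d4 R := van_four Z.mkQ d0 d1 d2 d3 d4 Z.mkQ_surjective
    (fun q => (Submodule.Quotient.mk_eq_zero _).mpr (z0 q))
    (fun p hp => e0 p ((Submodule.Quotient.mk_eq_zero _).mp hp)) z1 e1 z2 e2 z3 e3 e4
    (ext_four s1 s2 s3 hI Z.mkQ Z.mkQ_surjective (hq _ k1) (hq _ k2) (hq _ k3))
  have x0 := exa_zero hI d0 d1 e1 (hZ ▸ k1) (hZ ▸ k2) (hZ ▸ k3) (hZ ▸ hT)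
  have x1 : Exa d0 d1 (LinearMap.lcomp R Y2 d0) (LinearMap.lcomp R Y2 d1) :=
    exa_up (s3.hom _) (s3.hom _) (s3.hom _) (fun _ => rfl) (fun _ => rfl) (K1 _ k3)
      (fun _ => rfl) z1 (van_hom v02 _) x0
  have x2 : Exa d1 d2 (LinearMap.lcomp R Y1 d0) (LinearMap.lcomp R Y1 d1) :=
    exa_up (s2.hom _) (s2.hom _) (s2.hom _) (fun _ => rfl) (fun _ => rfl) (K2 _ k2)
      z1 z2 (van_hom v11 _) x1
  have x3 : Exa d2 d3 (LinearMap.lcomp R R d0) (LinearMap.lcomp R R d1) :=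
    exa_up (s1.hom _) (s1.hom _) (s1.hom _) (fun _ => rfl) (fun _ => rfl) (K3 _ k1)
      z2 z3 (van_hom v20 _) x2
  set φ2 := LinearMap.lcomp R R d0 with hφ2
  set φ1 := LinearMap.lcomp R R d1 with hφ1
  have i2 : ∀ g, φ2 g = 0 → g = 0 := fun g hg => by
    obtain ⟨u, hu⟩ := v00 g (fun q => LinearMap.congr_fun hg q)
    refine LinearMap.ext fun p => ?_
    have := hu p
    rwa [LinearMap.zero_apply, map_zero] at this
  have i1 : ∀ g, φ1 g = 0 → ∃ u, φ2 u = g := fun g hg => by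
    obtain ⟨u, hu⟩ := v10 g (fun q => LinearMap.congr_fun hg q)
    exact ⟨u, LinearMap.ext fun p => (hu p).symm⟩
  have i12 : ∀ u, φ1 (φ2 u) = 0 := fun u => LinearMap.ext fun p => by simp [φ1, φ2, z1]
  let W := LinearMap.range φ1
  let M := ((Fin m2 → R) →ₗ[R] R) ⧸ W
  let ι : M →ₗ[R] ((Fin m3 → R) →ₗ[R] R) := W.liftQ (LinearMap.lcomp R R d2) (by
    rintro _ ⟨g, rfl⟩
    exact LinearMap.ext fun p => by simp [φ1, z2])
  have hι : ∀ g q, ι (W.mkQ g) q = g (d2 q) := fun _ _ => rfl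
  have ιinj : ∀ m, ι m = 0 → m = 0 := fun m hm => by
    obtain ⟨g, rfl⟩ := W.mkQ_surjective m
    obtain ⟨u, hu⟩ := v20 g (fun q => LinearMap.congr_fun hm q)
    exact (Submodule.Quotient.mk_eq_zero _).mpr ⟨u, LinearMap.ext fun p => (hu p).symm⟩
  have vM : Van d1 d2 M := by
    intro f hf
    obtain ⟨f0, h0⟩ := exists_lift W.mkQ f (fun p => W.mkQ_surjective _)
    obtain ⟨f1, h1⟩ := exists_lift φ1 (f0 ∘ₗ d2) (fun p =>
      (Submodule.Quotient.mk_eq_zero W).mp (by simpa [hf] using h0 (d2 p)))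
    obtain ⟨f2, h2⟩ := exists_lift φ2 (f1 ∘ₗ d3) (fun p => i1 _ (by simp [h1, z3]))
    obtain ⟨g2, hg2⟩ := van_hom v40 _ f2 (fun q => i2 _ (by simp [h2, z4]))
    obtain ⟨h, e, -, he⟩ := x3 (f1 - φ2 ∘ₗ g2)
      (fun q => by
        have := h2 q
        simp only [LinearMap.comp_apply] at this
        simp [← this, hg2]) ⟨f0, fun p => by simp [h1, i12]⟩
    obtain ⟨g0, hg0⟩ := van_hom v20 _ (f0 - φ1 ∘ₗ e) (fun q => by
      have a := congrArg φ1 (he q)
      simp only [LinearMap.sub_apply, LinearMap.comp_apply, map_sub, map_add, i12, h1, sub_zero,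
        zero_add] at a
      simp [a])
    refine ⟨W.mkQ ∘ₗ g0, fun p => ?_⟩
    have a := congrArg W.mkQ (hg0 p)
    have b : W.mkQ (φ1 (e p)) = 0 := (Submodule.Quotient.mk_eq_zero W).mpr ⟨_, rfl⟩
    simp only [LinearMap.sub_apply, LinearMap.comp_apply, map_sub, b, sub_zero, h0] at a
    exact a
  refine ⟨M, inferInstance, inferInstance, inferInstance, ?_, ?_, ?_⟩
  · let ρ : ((Fin m1 → R) →ₗ[R] R) →ₗ[R] W := φ1.codRestrict W (fun y => ⟨y, rfl⟩)
    have S1 : SE (C := W) φ2 ρ := by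
      refine ⟨i2, fun x => Subtype.ext (i12 x), fun y hy => i1 y (congrArg Subtype.val hy), ?_⟩
      rintro ⟨_, y, rfl⟩
      exact ⟨y, rfl⟩
    have S2 : SE (A := W) (C := M) W.subtype W.mkQ :=
      ⟨fun x hx => by simpa using hx, fun x => (Submodule.Quotient.mk_eq_zero W).mpr x.2,
        fun y hy => ⟨⟨y, (Submodule.Quotient.mk_eq_zero W).mp hy⟩, rfl⟩, W.mkQ_surjective⟩
    have p2 : HasProjectiveDimensionLT (ModuleCat.of R ((ν → R) →ₗ[R] R)) 1 := inferInstance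
    have p1 : HasProjectiveDimensionLT (ModuleCat.of R ((Fin m1 → R) →ₗ[R] R)) 1 := inferInstance
    have p0 : HasProjectiveDimensionLT (ModuleCat.of R ((Fin m2 → R) →ₗ[R] R)) 1 := inferInstance
    exact S2.pd 2 (S1.pd 1 p2 (@hasProjectiveDimensionLT_of_ge _ _ _ _ 1 2 (by omega) p1))
      (@hasProjectiveDimensionLT_of_ge _ _ _ _ 1 3 (by omega) p0)
  · intro r hr x hx
    obtain ⟨t0, rfl⟩ := LinearMap.rTensor_surjective M W.mkQ_surjective x
    have hc : ∀ q, dualTensorHom R _ M t0 (d2 q) = 0 := by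
      intro q
      have e : ∀ t : Module.Dual R (Fin m2 → R) ⊗[R] M, dualTensorHom R _ M t (d2 q) =
          dualTensorHom R _ M (LinearMap.rTensor M ι (LinearMap.rTensor M W.mkQ t)) q := by
        intro t
        rw [← dth_nat d2 t q, ← LinearMap.rTensor_comp_apply]
        rfl
      have h1 : r • dualTensorHom R _ M t0 (d2 q) = 0 := by
        rw [e, ← LinearMap.smul_apply, ← map_smul, ← map_smul, hx]; simp
      apply ιinj
      refine LinearMap.ext fun w => ?_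
      have h2 := LinearMap.congr_fun (congrArg ι h1) w
      rw [map_smul, map_zero] at h2
      exact (mem_nonZeroDivisors_iff.mp hr).1 _ h2
    obtain ⟨g, hg⟩ := vM _ hc
    obtain ⟨t1, rfl⟩ := (dualTensorHomEquiv R (Fin m1 → R) M).surjective g
    have : t0 = LinearMap.rTensor M φ1 t1 := by
      apply (dualTensorHomEquiv R (Fin m2 → R) M).injective
      refine LinearMap.ext fun p => ?_
      exact (hg p).trans (dth_nat d1 t1 p).symm
    rw [this, ← LinearMap.rTensor_comp_apply]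
    have : W.mkQ ∘ₗ φ1 = 0 := LinearMap.ext fun y => (Submodule.Quotient.mk_eq_zero W).mpr ⟨_, rfl⟩
    rw [this]; simp
  · intro hR
    have v30 : Van d2 d3 R := by
      intro f hf
      obtain ⟨f', hf'⟩ := exists_factor d2 f (fun x hx => by
        obtain ⟨q, rfl⟩ := e3 x hx; exact hf q)
      let κ0 : Module.Dual R M →ₗ[R] (Fin m2 → R) :=
        (Module.evalEquiv R (Fin m2 → R)).symm.toLinearMap ∘ₗ W.mkQ.dualMap
      have hκ0 : ∀ (μ : Module.Dual R M) (g : Module.Dual R (Fin m2 → R)),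
          g (κ0 μ) = μ (W.mkQ g) := fun μ g => by
        simp [κ0]
      have hκ : ∀ μ, κ0 μ ∈ LinearMap.range d2 := fun μ => e2 _ (by
        funext i
        have := hκ0 μ (φ1 (LinearMap.proj i))
        rw [show W.mkQ (φ1 (LinearMap.proj i)) = 0 from
          (Submodule.Quotient.mk_eq_zero W).mpr ⟨_, rfl⟩, map_zero] at this
        exact this)
      obtain ⟨m, hm⟩ := (Module.evalEquiv R M).surjective
        (f' ∘ₗ κ0.codRestrict _ hκ)
      obtain ⟨g, rfl⟩ := W.mkQ_surjective m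
      refine ⟨g, fun q => ?_⟩
      have h1 := LinearMap.congr_fun hm (LinearMap.applyₗ q ∘ₗ ι)
      have h2 : κ0.codRestrict _ hκ (LinearMap.applyₗ q ∘ₗ ι) = ⟨d2 q, q, rfl⟩ := by
        apply Subtype.ext
        funext i
        exact hκ0 _ (LinearMap.proj i)
      rw [LinearMap.comp_apply, h2, hf'] at h1
      exact h1.symm
    have v21 : Van d1 d2 Y1 := van_down s1 z3 v30 v20
    have v12 : Van d0 d1 Y2 := van_down s2 z2 v21 v11
    have v03 : Van (0 : (ν → R) →ₗ[R] PUnit) d0 Y3 := van_down s3 z1 v12 v02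
    obtain ⟨f, hf0, hf⟩ := hne
    obtain ⟨u, hu⟩ := v03 f (fun q => hf _ (z0 q))
    refine hf0 (LinearMap.ext fun p => ?_)
    have := hu p
    rwa [LinearMap.zero_apply, map_zero] at this

end Pool.Agent.P.MP_fd997c_al
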