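import Pool.Agent.P.MP_fd997c_al.Ring
import Pool.Agent.P.MP_fd997c_al.Transpose

set_option autoImplicit false

/-! The module over the extension ring and the vanishing of its first self-Tor. -/

namespace Pool.Agent.P.MP_fd997c_al

open PowerSeries

variable {A : Type} [CommRing A] {ν : Type}

/-- The relation module over the extension ring. -/
def ZB (Z : Submodule A (ν → A)) : Submodule (B A) (Fin 2 × ν → B A) where
  carrier := {z | (∀ α, (fun p => co 0 (z (α, p)) 0) ∈ Z) ∧ ∃ u : Fin 13 → ν → A,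
    ∀ α i, (fun p => co 1 (z (α, p)) i) - ∑ j, vv α i j • u j ∈ Z}
  zero_mem' := ⟨fun α => by convert Z.zero_mem using 1; funext p; simp, 0,
    fun α i => by convert Z.zero_mem using 1; funext p; simp⟩
  add_mem' := by
    rintro a b ⟨ha, u, hu⟩ ⟨hb, w, hw⟩
    refine ⟨fun α => ?_, u + w, fun α i => ?_⟩
    · have := Z.add_mem (ha α) (hb α)
      convert this using 1
      funext p; simp
    · have := Z.add_mem (hu α i) (hw α i)
      convert this using 1
      funext p; simp [Finset.sum_add_distrib]; ring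
  smul_mem' := by
    rintro f z ⟨ha, u, hu⟩
    refine ⟨fun α => ?_, co 0 f 0 • u, fun α i => ?_⟩
    · have := Z.smul_mem (co 0 f 0) (ha α)
      convert this using 1
      funext p; simp [co0_mul]
    · have := Z.add_mem (Z.smul_mem (co 0 f 0) (hu α i)) (Z.smul_mem (co 1 f i) (ha α))
      convert this using 1
      funext p
      simp [co1_mul, mul_sub, Finset.mul_sum]
      ring

theorem cc_vvA (α : Fin 2) (j : Fin 13) : ∑ i, (cc i : A) * (vv α i j : A) = 0 := by
  have := congrArg (Int.cast : ℤ → A) (cc_vv α j)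
  simpa using this

/-- The linear generators. -/
noncomputable def lv (α : Fin 2) (j : Fin 13) : B A := lin (fun i => (vv α i j : A)) (cc_vvA α j)

variable [DecidableEq ν]

/-- Linear relations. -/
noncomputable def ze (j : Fin 13) (p0 : ν) : Fin 2 × ν → B A :=
  fun x => if x.2 = p0 then lv x.1 j else 0

/-- Extended relations. -/
noncomputable def ep (α : Fin 2) (w : B A) (z : ν → A) : Fin 2 × ν → B A :=
  fun x => if x.1 = α then w * cst (z x.2) else 0

theorem ze_mem (Z : Submodule A (ν → A)) (j : Fin 13) (p0 : ν) : ze j p0 ∈ ZB Z := by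
  refine ⟨fun α => ?_, Pi.single j (Pi.single p0 1), fun α i => ?_⟩
  · convert Z.zero_mem using 1
    funext p
    simp only [ze, lv]
    split_ifs <;> simp [co_lin]
  · convert Z.zero_mem using 1
    funext p
    simp only [ze, lv, Pi.sub_apply, Pi.single_apply, smul_ite, smul_zero,
      Finset.sum_ite_eq', Finset.mem_univ, if_true, Pi.zero_apply]
    split_ifs with h <;> simp [co_lin, h]

omit [DecidableEq ν] in
theorem ep_mem (Z : Submodule A (ν → A)) (α : Fin 2) (w : B A) {z : ν → A} (hz : z ∈ Z) :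
    ep α w z ∈ ZB Z := by
  have h1 : ep α 1 z ∈ ZB Z := by
    refine ⟨fun β => ?_, 0, fun β i => ?_⟩
    · by_cases h : β = α
      · convert hz using 1
        funext p; simp [ep, h, co_cst]
      · convert Z.zero_mem using 1
        funext p; simp [ep, h]
    · convert Z.zero_mem using 1
      funext p
      by_cases h : β = α <;> simp [ep, h, co_cst]
  convert (ZB Z).smul_mem w h1 using 1
  funext x
  simp [ep]

/-- The span of outer products. -/
abbrev OP {R ι : Type} [CommRing R] (Z : Submodule R (ι → R)) : Submodule R (ι → ι → R) :=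
  Submodule.span R {t : ι → ι → R | ∃ z ∈ Z, ∃ z' ∈ Z, t = fun p q => z p * z' q}

omit [DecidableEq ν] in
theorem op_mem {R ι : Type} [CommRing R] {Z : Submodule R (ι → R)} {z z' : ι → R} (hz : z ∈ Z)
    (hz' : z' ∈ Z) : (fun p q => z p * z' q) ∈ OP Z :=
  Submodule.subset_span ⟨z, hz, z', hz', rfl⟩

/-- A block matrix. -/
noncomputable def bk (α β : Fin 2) (w : B A) (m : ν → ν → A) : Fin 2 × ν → Fin 2 × ν → B A :=
  fun x y => if x.1 = α ∧ y.1 = β then w * cst (m x.2 y.2) else 0

omit [DecidableEq ν] in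
theorem bk_mem (Z : Submodule A (ν → A)) (α β : Fin 2) (w : B A) {m : ν → ν → A}
    (hm : m ∈ OP Z) : bk α β w m ∈ OP (ZB Z) := by
  induction hm using Submodule.span_induction with
  | mem x hx =>
    obtain ⟨z, hz, z', hz', rfl⟩ := hx
    convert op_mem (ep_mem Z α w hz) (ep_mem Z β 1 hz') using 1
    funext x y
    by_cases h1 : x.1 = α <;> by_cases h2 : y.1 = β <;> simp [bk, ep, h1, h2, mul_assoc]
  | zero =>
    convert (OP (ZB Z)).zero_mem using 1
    funext x y; simp [bk]
  | add a b _ _ ha hb =>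
    convert (OP (ZB Z)).add_mem ha hb using 1
    funext x y
    by_cases h : x.1 = α ∧ y.1 = β <;> simp [bk, h, mul_add]
  | smul c a _ ha =>
    convert (OP (ZB Z)).smul_mem (cst c) ha using 1
    funext x y
    by_cases h : x.1 = α ∧ y.1 = β <;> simp [bk, h, mul_left_comm]

variable [Fintype ν]

theorem sq_mem (Z : Submodule A (ν → A)) (h : Fin 2 × ν → Fin 2 × ν → Fin 26 → PowerSeries A) :
    (fun x y => sq (h x y)) ∈ OP (ZB Z) := by
  have key : ∀ (x0 y0 : Fin 2 × ν) (i0 : Fin 26),
      (fun x y => if x = x0 ∧ y = y0 then sq (Pi.single i0 1) else 0) ∈ OP (ZB Z) := by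
    intro x0 y0 i0
    obtain ⟨j1, l1, j2, l2, e1, e2, he⟩ := kappa i0 x0.1 y0.1
    convert (OP (ZB Z)).add_mem
      ((OP (ZB Z)).smul_mem (e1 : B A) (op_mem (ze_mem Z j1 x0.2) (ze_mem Z l1 y0.2)))
      ((OP (ZB Z)).smul_mem (e2 : B A) (op_mem (ze_mem Z j2 x0.2) (ze_mem Z l2 y0.2))) using 1
    funext x y
    refine Subtype.ext (funext fun i => ?_)
    have h1 := congrArg (Int.cast : ℤ → PowerSeries A) (he i x.1 y.1)
    push_cast at h1
    by_cases hx : x.2 = x0.2
    · by_cases hy : y.2 = y0.2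
      · have e : (if x = x0 ∧ y = y0 then sq (Pi.single i0 1) else (0 : B A)).1 i =
            X ^ 2 * (if i = i0 ∧ x.1 = x0.1 ∧ y.1 = y0.1 then 1 else 0) := by
          by_cases a : x.1 = x0.1 <;> by_cases b : y.1 = y0.1 <;>
            simp [Prod.ext_iff, hx, hy, a, b, Pi.single_apply]
        rw [e, ← h1]
        simp [ze, hx, hy, lv]
        ring
      · simp [ze, hy, Prod.ext_iff]
    · simp [ze, hx, Prod.ext_iff]
  have e : (fun x y => sq (h x y)) = ∑ x0, ∑ y0, ∑ i0,
      algebraMap (PowerSeries A) (B A) (h x0 y0 i0) •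
        (fun x y => if x = x0 ∧ y = y0 then sq (Pi.single i0 1) else (0 : B A)) := by
    funext x y
    rw [sq_eq]
    simp only [Finset.sum_apply, Pi.smul_apply, smul_eq_mul, mul_ite, mul_zero]
    rw [Finset.sum_eq_single x, Finset.sum_eq_single y] <;> simp +contextual [eq_comm]
  rw [e]
  exact Submodule.sum_mem _ fun _ _ => Submodule.sum_mem _ fun _ _ => Submodule.sum_mem _
    fun _ _ => Submodule.smul_mem _ _ (key _ _ _)

omit [DecidableEq ν] [Fintype ν] in
theorem split_lin {G : Type} [AddCommGroup G] (H : AddSubgroup G) {α β : Fin 2} (hne : α ≠ β)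
    (U U' : Fin 13 → G) (h : ∀ i, ∑ j, vv α i j • U j - ∑ j, vv β i j • U' j ∈ H) (j : Fin 13) :
    ∑ l, ee j l • U l ∈ H := by
  have := H.sum_mem (t := Finset.univ) fun i _ => H.zsmul_mem (h i) (rho α j i)
  have e : ∀ (γ : Fin 2) (V : Fin 13 → G), ∑ i, rho α j i • ∑ l, vv γ i l • V l =
      ∑ l, (if α = γ then ee j l else 0) • V l := by
    intro γ V
    simp only [Finset.smul_sum, smul_smul]
    rw [Finset.sum_comm]
    simp only [← Finset.sum_smul, rho_vv]
  simp only [smul_sub, Finset.sum_sub_distrib, e, if_true, hne, if_false, zero_smul,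
    Finset.sum_const_zero, sub_zero] at this
  exact this

omit [DecidableEq ν] [Fintype ν] in
theorem vv_ee_sum {G : Type} [AddCommGroup G] (α : Fin 2) (i : Fin 26) (U : Fin 13 → G) :
    ∑ j, vv α i j • ∑ l, ee j l • U l = ∑ l, vv α i l • U l := by
  simp only [Finset.smul_sum, smul_smul]
  rw [Finset.sum_comm]
  simp only [← Finset.sum_smul, vv_ee]

theorem tp_ZB (Z : Submodule A (ν → A)) (hT : TP Z) : TP (ZB Z) := by
  intro t hr hc
  let L0 : Submodule A (ν → ν → A) :=
    { carrier := {t | ∀ q, (fun p => t p q) ∈ Z}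
      add_mem' := fun ha hb q => Z.add_mem (ha q) (hb q)
      zero_mem' := fun q => Z.zero_mem
      smul_mem' := fun c t ht q => Z.smul_mem c (ht q) }
  let R0 : Submodule A (ν → ν → A) := Submodule.pi Set.univ (fun _ => Z)
  choose u' hu' using fun x => (hr x).2
  choose u hu using fun y => (hc y).2
  let W : Fin 2 → Fin 2 → Fin 26 → ν → ν → A := fun α β i p q => co 1 (t (α, p) (β, q)) i
  let U : Fin 2 → Fin 13 → ν → ν → A := fun β j p q => u (β, q) j p
  let U' : Fin 2 → Fin 13 → ν → ν → A := fun α j p q => u' (α, p) j q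
  have c1 : ∀ α β i, W α β i - ∑ j, vv α i j • U β j ∈ L0 := fun α β i q => by
    convert hu (β, q) α i using 1
    funext p; simp [W, U]
  have c2 : ∀ α β i, W α β i - ∑ j, vv β i j • U' α j ∈ R0 := fun α β i p _ => by
    change _ ∈ Z
    convert hu' (α, p) β i using 1
    funext q; simp [W, U']
  have c3 : ∀ α β i, ∑ j, vv α i j • U β j - ∑ j, vv β i j • U' α j ∈ L0 ⊔ R0 := fun α β i => by
    have := Submodule.add_mem_sup (L0.neg_mem (c1 α β i)) (c2 α β i)
    convert this using 1
    abel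
  have ne1 : ∀ β : Fin 2, β + 1 ≠ β := by decide
  have d1 : ∀ β j, ∃ r ∈ R0, ∑ l, ee j l • U β l - r ∈ L0 := fun β j => by
    have := split_lin (L0 ⊔ R0).toAddSubgroup (ne1 β) (U β) (U' (β + 1)) (c3 (β + 1) β) j
    obtain ⟨a, ha, b, hb, e⟩ := Submodule.mem_sup.mp this
    exact ⟨b, hb, by rw [← e]; simpa using ha⟩
  have d2 : ∀ α j, ∃ l ∈ L0, ∑ l, ee j l • U' α l - l ∈ R0 := fun α j => by
    have := split_lin (L0 ⊔ R0).toAddSubgroup (ne1 α) (U' α) (U (α + 1)) (fun i => by
      have := (L0 ⊔ R0).neg_mem (c3 α (α + 1) i)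
      rw [neg_sub] at this
      exact this) j
    obtain ⟨a, ha, b, hb, e⟩ := Submodule.mem_sup.mp this
    exact ⟨a, ha, by rw [← e]; simpa using hb⟩
  choose r hr1 hr2 using d1
  choose l hl1 hl2 using d2
  let W2 : Fin 2 → Fin 2 → Fin 26 → ν → ν → A := fun α β i =>
    W α β i - ∑ j, vv α i j • r β j - ∑ j, vv β i j • l α j
  have w1 : ∀ α β i, W2 α β i ∈ L0 := fun α β i => by
    have h1 := L0.sum_mem (t := Finset.univ) fun j _ => L0.smul_of_tower_mem (vv α i j) (hr2 β j)
    have h2 := L0.sum_mem (t := Finset.univ) fun j _ => L0.smul_of_tower_mem (vv β i j) (hl1 α j)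
    simp only [smul_sub, Finset.sum_sub_distrib, vv_ee_sum] at h1
    convert L0.sub_mem (L0.add_mem (c1 α β i) h1) h2 using 1
    simp only [W2]; abel
  have w2 : ∀ α β i, W2 α β i ∈ R0 := fun α β i => by
    have h1 := R0.sum_mem (t := Finset.univ) fun j _ => R0.smul_of_tower_mem (vv β i j) (hl2 α j)
    have h2 := R0.sum_mem (t := Finset.univ) fun j _ => R0.smul_of_tower_mem (vv α i j) (hr1 β j)
    simp only [smul_sub, Finset.sum_sub_distrib, vv_ee_sum] at h1
    convert R0.sub_mem (R0.add_mem (c2 α β i) h1) h2 using 1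
    simp only [W2]; abel
  have w3 : ∀ α β i, W2 α β i ∈ OP Z := fun α β i =>
    hT _ (fun p => w2 α β i p trivial) (w1 α β i)
  have w4 : ∀ α β p q, ∑ i, (cc i : A) * W2 α β i p q = 0 := fun α β p q => by
    have e : ∀ (γ : Fin 2) (V : Fin 13 → A), ∑ i, (cc i : A) * ∑ j, (vv γ i j : A) * V j = 0 := by
      intro γ V
      simp only [Finset.mul_sum, ← mul_assoc]
      rw [Finset.sum_comm]
      simp only [← Finset.sum_mul, cc_vvA, zero_mul, Finset.sum_const_zero]
    simp only [W2, W, Pi.sub_apply, Finset.sum_apply, Pi.smul_apply]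
    simp only [zsmul_eq_mul, mul_sub, Finset.sum_sub_distrib, e, co_one, sub_zero]
  have t0 : ∀ α β, (fun p q => co 0 (t (α, p) (β, q)) 0) ∈ OP Z := fun α β =>
    hT _ (fun p => (hr (α, p)).1 β) (fun q => (hc (β, q)).1 α)
  have e : t = (∑ α, ∑ β, bk α β 1 (fun p q => co 0 (t (α, p) (β, q)) 0)) +
      ((∑ α, ∑ β, ∑ i, bk α β (om i) (W2 α β i)) +
       (∑ β, ∑ j, ∑ p0, fun x y => ze j p0 x * ep β 1 (r β j p0) y) +
       (∑ α, ∑ j, ∑ q0, fun x y => ep α 1 (fun p => l α j p q0) x * ze j q0 y)) +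
      fun x y => sq (fun i => PowerSeries.mk fun n => co (n + 2) (t x y) i) := by
    funext ⟨α, p⟩ ⟨β, q⟩
    have e0 : (∑ α, ∑ β, bk α β 1 (fun p q => co 0 (t (α, p) (β, q)) 0)) (α, p) (β, q) =
        cst (co 0 (t (α, p) (β, q)) 0) := by
      simp only [Finset.sum_apply, bk]
      rw [Finset.sum_eq_single α, Finset.sum_eq_single β] <;> simp +contextual [eq_comm]
    have e1 : (∑ α, ∑ β, ∑ i, bk α β (om i) (W2 α β i)) (α, p) (β, q) =
        lin _ (w4 α β p q) := by
      rw [lin_eq]
      simp only [Finset.sum_apply, bk]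
      rw [Finset.sum_eq_single α, Finset.sum_eq_single β] <;> simp +contextual [eq_comm]
    have e2 : (∑ β, ∑ j, ∑ p0, fun x y => ze j p0 x * ep β 1 (r β j p0) y) (α, p) (β, q) =
        ∑ j, lv α j * cst (r β j p q) := by
      simp only [Finset.sum_apply, ze, ep]
      rw [Finset.sum_eq_single β] <;> simp +contextual [eq_comm]
    have e3 : (∑ α, ∑ j, ∑ q0, fun x y => ep α 1 (fun p => l α j p q0) x * ze j q0 y)
        (α, p) (β, q) = ∑ j, cst (l α j p q) * lv β j := by
      simp only [Finset.sum_apply, ze, ep]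
      rw [Finset.sum_eq_single α] <;> simp +contextual [eq_comm]
    simp only [Pi.add_apply]
    rw [e0, e1, e2, e3]
    conv_lhs => rw [dec (t (α, p) (β, q))]
    congr 2
    refine co_ext fun n i => ?_
    simp only [co_add, co_sum, mul_comm (lv _ _), co_cst_mul]
    simp only [lv, co_lin]
    split_ifs
    · simp [W2, W, mul_comm]
      ring
    · simp
  rw [e]
  refine Submodule.add_mem _ (Submodule.add_mem _ ?_ (Submodule.add_mem _
    (Submodule.add_mem _ ?_ ?_) ?_)) (sq_mem Z _)
  · exact Submodule.sum_mem _ fun α _ => Submodule.sum_mem _ fun β _ => bk_mem Z _ _ _ (t0 α β)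
  · exact Submodule.sum_mem _ fun α _ => Submodule.sum_mem _ fun β _ =>
      Submodule.sum_mem _ fun i _ => bk_mem Z _ _ _ (w3 α β i)
  · exact Submodule.sum_mem _ fun β _ => Submodule.sum_mem _ fun j _ =>
      Submodule.sum_mem _ fun p _ => op_mem (ze_mem Z j p) (ep_mem Z β 1 (hr1 β j p trivial))
  · exact Submodule.sum_mem _ fun α _ => Submodule.sum_mem _ fun j _ =>
      Submodule.sum_mem _ fun q _ => op_mem (ep_mem Z α 1 (hl1 α j q)) (ze_mem Z j q)

end Pool.Agent.P.MP_fd997c_al
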