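import Pool.Agent.P.MP_fd997c_al.Data

set_option autoImplicit false

/-! A one-dimensional Gorenstein extension of a ring: twenty-six branches. -/

namespace Pool.Agent.P.MP_fd997c_al

open PowerSeries

variable (A : Type) [CommRing A]

theorem cc_sumA : ∑ i, (cc i : A) = 0 := by
  have := congrArg (Int.cast : ℤ → A) cc_sum
  simpa using this

theorem cc_sqA (i : Fin 26) : (cc i : A) * (cc i : A) = 1 := by
  have := congrArg (Int.cast : ℤ → A) (cc_sq i)
  simpa using this

/-- Tuples of power series with a common constant term and a linear condition in degree one. -/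
def B : Subalgebra (PowerSeries A) (Fin 26 → PowerSeries A) where
  carrier := {f | (∀ i, coeff 0 (f i) = coeff 0 (f 0)) ∧ ∑ i, (cc i : A) * coeff 1 (f i) = 0}
  mul_mem' := by
    rintro f g ⟨hf0, hf1⟩ ⟨hg0, hg1⟩
    simp only [coeff_zero_eq_constantCoeff] at hf0 hg0
    refine ⟨fun i => by simp [hf0 i, hg0 i], ?_⟩
    have : ∀ i, (cc i : A) * coeff 1 ((f * g) i) =
        (cc i : A) * coeff 1 (f i) * constantCoeff (g 0) +
          (cc i : A) * coeff 1 (g i) * constantCoeff (f 0) := fun i => by
      rw [Pi.mul_apply, coeff_one_mul, hf0 i, hg0 i]; ring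
    simp only [this, Finset.sum_add_distrib, ← Finset.sum_mul, hf1, hg1, zero_mul, add_zero]
  add_mem' := by
    rintro f g ⟨hf0, hf1⟩ ⟨hg0, hg1⟩
    refine ⟨fun i => by simp only [Pi.add_apply, map_add, hf0 i, hg0 i], ?_⟩
    simp only [Pi.add_apply, map_add, mul_add, Finset.sum_add_distrib, hf1, hg1, add_zero]
  algebraMap_mem' h := by
    refine ⟨fun i => rfl, ?_⟩
    simp only [Pi.algebraMap_apply, Algebra.algebraMap_self, RingHom.id_apply, ← Finset.sum_mul,
      cc_sumA, zero_mul]

variable {A}

/-- Coefficients. -/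
noncomputable def co (n : ℕ) (f : B A) (i : Fin 26) : A := coeff n (f.1 i)

theorem co_zero (f : B A) (i : Fin 26) : co 0 f i = co 0 f 0 := f.2.1 i

theorem co_one (f : B A) : ∑ i, (cc i : A) * co 1 f i = 0 := f.2.2

@[simp] theorem co_add (n : ℕ) (f g : B A) (i : Fin 26) : co n (f + g) i = co n f i + co n g i := by
  simp [co]

@[simp] theorem co_sub (n : ℕ) (f g : B A) (i : Fin 26) : co n (f - g) i = co n f i - co n g i := by
  simp [co]

@[simp] theorem co_nil (n : ℕ) (i : Fin 26) : co n (0 : B A) i = 0 := by simp [co]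

theorem co_sum {ι : Type} (s : Finset ι) (n : ℕ) (f : ι → B A) (i : Fin 26) :
    co n (∑ x ∈ s, f x) i = ∑ x ∈ s, co n (f x) i := by
  simp [co]

theorem co_ext {f g : B A} (h : ∀ n i, co n f i = co n g i) : f = g :=
  Subtype.ext (funext fun i => PowerSeries.ext fun n => h n i)

theorem co_mul (n : ℕ) (f g : B A) (i : Fin 26) :
    co n (f * g) i = ∑ p ∈ Finset.HasAntidiagonal.antidiagonal n, co p.1 f i * co p.2 g i := by
  simp [co, coeff_mul]

theorem co0_mul (f g : B A) (i : Fin 26) : co 0 (f * g) i = co 0 f 0 * co 0 g 0 := by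
  rw [← co_zero f i, ← co_zero g i]
  simp [co]

theorem co1_mul (f g : B A) (i : Fin 26) :
    co 1 (f * g) i = co 0 f 0 * co 1 g i + co 1 f i * co 0 g 0 := by
  rw [← co_zero f i, ← co_zero g i]
  simp only [co, Subalgebra.coe_mul, Pi.mul_apply, coeff_one_mul, coeff_zero_eq_constantCoeff]
  ring

/-- Constants. -/
noncomputable def cst : A →+* B A := (algebraMap (PowerSeries A) (B A)).comp C

@[simp] theorem cst_val (a : A) (i : Fin 26) : (cst a).1 i = C a := rfl

@[simp] theorem alg_val (h : PowerSeries A) (i : Fin 26) :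
    (algebraMap (PowerSeries A) (B A) h).1 i = h := rfl

theorem co_cst_mul (n : ℕ) (a : A) (f : B A) (i : Fin 26) : co n (cst a * f) i = a * co n f i := by
  simp [co]

theorem co_cst (n : ℕ) (a : A) (i : Fin 26) : co n (cst a) i = if n = 0 then a else 0 := by
  simp [co, coeff_C]

/-- Elements of degree one. -/
noncomputable def lin (w : Fin 26 → A) (hw : ∑ i, (cc i : A) * w i = 0) : B A :=
  ⟨fun i => X * C (w i), fun i => by simp, by simpa [coeff_succ_X_mul] using hw⟩

@[simp] theorem lin_val (w : Fin 26 → A) (hw : ∑ i, (cc i : A) * w i = 0) (i : Fin 26) :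
    (lin w hw).1 i = X * C (w i) := rfl

theorem co_lin (n : ℕ) (w : Fin 26 → A) (hw : ∑ i, (cc i : A) * w i = 0) (i : Fin 26) :
    co n (lin w hw) i = if n = 1 then w i else 0 := by
  simp [co, coeff_X]

/-- Elements of the conductor. -/
noncomputable def sq (h : Fin 26 → PowerSeries A) : B A :=
  ⟨fun i => X ^ 2 * h i, fun i => by simp, by simp [coeff_X_pow_mul']⟩

@[simp] theorem sq_val (h : Fin 26 → PowerSeries A) (i : Fin 26) : (sq h).1 i = X ^ 2 * h i := rfl

theorem dec (f : B A) : f = cst (co 0 f 0) + lin (co 1 f) (co_one f) +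
    sq (fun i => PowerSeries.mk fun n => co (n + 2) f i) := by
  refine co_ext fun n i => ?_
  rw [co_add, co_add, co_cst, co_lin]
  rcases n with _ | _ | n
  · rw [co_zero f i]; simp [co]
  · simp [co, coeff_X_pow_mul']
  · simp [co, coeff_X_pow_mul']

/-- Generators in degree one. -/
noncomputable def om (i : Fin 26) : B A :=
  lin (fun j => (if j = i then 1 else 0) - (if j = 0 then (cc i : A) * cc 0 else 0)) (by
    simp only [mul_sub, mul_ite, mul_one, mul_zero, Finset.sum_sub_distrib, Finset.sum_ite_eq',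
      Finset.mem_univ, if_true]
    rw [mul_left_comm, cc_sqA, mul_one, sub_self])

theorem lin_eq (w : Fin 26 → A) (hw : ∑ i, (cc i : A) * w i = 0) :
    lin w hw = ∑ i, om i * cst (w i) := by
  refine co_ext fun n j => ?_
  have e : ∀ i, co n (om i * cst (w i)) j = w i * co n (om i) j := fun i => by
    rw [mul_comm, co_cst_mul]
  simp only [co_sum, e]
  simp only [om, co_lin]
  have : ∑ x, w x * ((cc x : A) * cc 0) = (∑ x, (cc x : A) * w x) * cc 0 := by
    rw [Finset.sum_mul]; exact Finset.sum_congr rfl fun x _ => by ring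
  by_cases h1 : n = 1
  · by_cases h2 : j = 0
    · simp only [h1, h2, if_true, mul_sub, Finset.sum_sub_distrib, this, hw]
      simp
    · simp [h1, h2]
  · simp [h1]

theorem sq_eq (h : Fin 26 → PowerSeries A) :
    sq h = ∑ i, algebraMap (PowerSeries A) (B A) (h i) * sq (Pi.single i 1) := by
  refine Subtype.ext (funext fun j => ?_)
  simp [Pi.single_apply, mul_comm]

theorem ps_mem (l : List A) (h : PowerSeries A) (hh : ∀ n, coeff n h ∈ Ideal.ofList l) :
    h ∈ Ideal.ofList (l.map (C : A →+* PowerSeries A)) := by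
  induction l generalizing h with
  | nil =>
    have : h = 0 := PowerSeries.ext fun n => by simpa using hh n
    simp [this]
  | cons b l ih =>
    have : ∀ n, ∃ u : A, coeff n h - u * b ∈ Ideal.ofList l := fun n => by
      have := hh n
      rw [Ideal.ofList_cons, Submodule.mem_sup] at this
      obtain ⟨y, hy, z, hz, e⟩ := this
      obtain ⟨u, rfl⟩ := Ideal.mem_span_singleton'.mp hy
      exact ⟨u, by rw [← e]; simpa using hz⟩
    choose u hu using this
    have h1 := ih (h - PowerSeries.mk u * C b) (fun n => by simpa using hu n)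
    rw [List.map_cons, Ideal.ofList_cons]
    have e : h = PowerSeries.mk u * C b + (h - PowerSeries.mk u * C b) := by ring
    rw [e]
    exact Submodule.add_mem_sup (Ideal.mem_span_singleton'.mpr ⟨_, rfl⟩) h1

theorem mem_ext (l : List A) (f : B A) :
    f ∈ Ideal.ofList (l.map cst) ↔ ∀ n i, co n f i ∈ Ideal.ofList l := by
  constructor
  · intro hf
    induction hf using Submodule.span_induction with
    | mem x hx =>
      obtain ⟨a, ha, rfl⟩ := List.mem_map.mp hx
      intro n i
      rw [co_cst]
      split_ifs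
      · exact Ideal.subset_span ha
      · exact Submodule.zero_mem _
    | zero => intro n i; simp
    | add x y _ _ hx hy => intro n i; rw [co_add]; exact Submodule.add_mem _ (hx n i) (hy n i)
    | smul c x _ hx =>
      intro n i
      rw [smul_eq_mul, co_mul]
      exact Submodule.sum_mem _ fun p _ => Ideal.mul_mem_left _ _ (hx _ _)
  · intro hf
    have hc : ∀ a ∈ Ideal.ofList l, cst a ∈ Ideal.ofList (l.map cst) := fun a ha => by
      rw [← Ideal.map_ofList]; exact Ideal.mem_map_of_mem _ ha
    rw [dec f, lin_eq, sq_eq]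
    refine Submodule.add_mem _ (Submodule.add_mem _ (hc _ (hf _ _)) ?_) ?_
    · exact Submodule.sum_mem _ fun i _ => Ideal.mul_mem_left _ _ (hc _ (hf _ _))
    · refine Submodule.sum_mem _ fun i _ => Ideal.mul_mem_right _ _ ?_
      have := Ideal.mem_map_of_mem (algebraMap (PowerSeries A) (B A))
        (ps_mem l (PowerSeries.mk fun n => co (n + 2) f i) (fun n => by simpa using hf _ _))
      rw [Ideal.map_ofList, List.map_map] at this
      exact this

/-- The new parameter. -/
noncomputable def xx : B A := sq 1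

theorem co_xx_mul (n : ℕ) (g : B A) (i : Fin 26) :
    co n (xx * g) i = if 2 ≤ n then co (n - 2) g i else 0 := by
  simp [co, xx, coeff_X_pow_mul']

theorem mem_new (l : List A) (f : B A) (h0 : co 0 f 0 ∈ Ideal.ofList l)
    (h1 : ∀ i, co 1 f i ∈ Ideal.ofList l) (h2 : ∀ i, co 2 f i - co 2 f 0 ∈ Ideal.ofList l)
    (h3 : ∑ i, (cc i : A) * co 3 f i ∈ Ideal.ofList l) :
    f ∈ Ideal.ofList (xx :: l.map cst) := by
  set s := ∑ i, (cc i : A) * co 3 f i with hs
  let g : B A := ⟨fun i => PowerSeries.mk fun n => if n = 0 then co 2 f 0 else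
      if n = 1 then co 3 f i - (if i = 0 then (cc 0 : A) * s else 0) else co (n + 2) f i,
    fun i => by simp, by
      simp only [coeff_mk, one_ne_zero, if_false, if_true, mul_sub, Finset.sum_sub_distrib,
        mul_ite, mul_zero, Finset.sum_ite_eq', Finset.mem_univ]
      rw [← mul_assoc, cc_sqA, one_mul, sub_self]⟩
  have hg : ∀ n i, co n g i = if n = 0 then co 2 f 0 else
      if n = 1 then co 3 f i - (if i = 0 then (cc 0 : A) * s else 0) else co (n + 2) f i :=
    fun n i => by simp only [co, g, coeff_mk]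
  have e : f = g * xx + (f - xx * g) := by ring
  rw [e, Ideal.ofList_cons]
  refine Submodule.add_mem_sup (Ideal.mem_span_singleton'.mpr ⟨_, rfl⟩) ?_
  refine (mem_ext l _).mpr fun n i => ?_
  rw [co_sub, co_xx_mul, hg]
  rcases n with _ | _ | _ | _ | n
  · simpa [co_zero f i] using h0
  · simpa using h1 i
  · simpa using h2 i
  · simp only [zero_add, Nat.reduceAdd, Nat.reduceLeDiff, if_true, Nat.reduceSub, one_ne_zero,
      if_false, sub_sub_cancel]
    split_ifs
    · exact Ideal.mul_mem_left _ _ h3
    · exact Submodule.zero_mem _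
  · simp

theorem new_mem (l : List A) (f : B A) (hf : f ∈ Ideal.ofList (xx :: l.map cst)) :
    ∑ i, (cc i : A) * co 3 f i ∈ Ideal.ofList l := by
  rw [Ideal.ofList_cons, Submodule.mem_sup] at hf
  obtain ⟨y, hy, z, hz, rfl⟩ := hf
  obtain ⟨u, rfl⟩ := Ideal.mem_span_singleton'.mp hy
  simp only [co_add, mul_add, Finset.sum_add_distrib, mul_comm u, co_xx_mul]
  simp only [Nat.reduceLeDiff, if_true, Nat.reduceSub, co_one, zero_add]
  exact Submodule.sum_mem _ fun i _ => Ideal.mul_mem_left _ _ ((mem_ext l z).mp hz _ _)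

theorem isUnit_B (f : B A) (h : IsUnit (co 0 f 0)) : IsUnit f := by
  have hu : ∀ i, ∃ g : PowerSeries A, f.1 i * g = 1 := fun i => by
    have : IsUnit (f.1 i) := PowerSeries.isUnit_iff_constantCoeff.mpr (by
      rw [← co_zero f i] at h
      simpa [co] using h)
    exact this.exists_right_inv
  choose g hg using hu
  have h0 : ∀ i, co 0 f 0 * coeff 0 (g i) = 1 := fun i => by
    have := congrArg (coeff 0) (hg i)
    rw [← co_zero f i]
    simpa [co] using this
  have h00 : ∀ i, coeff 0 (g i) = coeff 0 (g 0) := fun i =>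
    h.mul_left_cancel ((h0 i).trans (h0 0).symm)
  have h1 : ∀ i, co 0 f 0 * coeff 1 (g i) = - (co 1 f i * coeff 0 (g 0)) := fun i => by
    have := congrArg (coeff 1) (hg i)
    rw [coeff_one_mul, coeff_one, ← coeff_zero_eq_constantCoeff_apply,
      ← coeff_zero_eq_constantCoeff_apply, h00 i] at this
    rw [← co_zero f i]
    simp only [co, one_ne_zero, if_false] at this ⊢
    linear_combination this
  refine IsUnit.of_mul_eq_one ⟨g, h00, ?_⟩ (Subtype.ext (funext hg))
  apply h.mul_left_cancel
  rw [Finset.mul_sum, mul_zero]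
  have : ∀ i, co 0 f 0 * ((cc i : A) * coeff 1 (g i)) =
      (cc i : A) * co 1 f i * (- coeff 0 (g 0)) := fun i => by
    linear_combination (cc i : A) * h1 i
  simp only [this, ← Finset.sum_mul, co_one, zero_mul]

theorem local_B [IsLocalRing A] : IsLocalRing (B A) := by
  have : Nontrivial (B A) := ⟨0, 1, fun h => by
    have := congrArg (fun f => co 0 f 0) h
    simp [co] at this⟩
  refine IsLocalRing.of_isUnit_or_isUnit_one_sub_self fun f => ?_
  rcases IsLocalRing.isUnit_or_isUnit_one_sub_self (co 0 f 0) with h | h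
  · exact Or.inl (isUnit_B f h)
  · refine Or.inr (isUnit_B _ ?_)
    rw [co_sub]
    simpa [co] using h

theorem noeth_B [IsNoetherianRing A] : IsNoetherianRing (B A) := by
  have : Module.Finite (PowerSeries A) (B A) :=
    Module.Finite.of_injective (B A).val.toLinearMap Subtype.val_injective
  exact IsNoetherianRing.of_finite (PowerSeries A) (B A)

end Pool.Agent.P.MP_fd997c_al
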